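import Mathlib

set_option autoImplicit false

namespace Pool.Agent.H28.TreeClique

open Finset Classical

variable {V α : Type*}

/-- `A` is a union of components of `T - c`. -/
def Closed (T : SimpleGraph α) (c : α) (A : Finset α) : Prop :=
  c ∉ A ∧ ∀ a ∈ A, ∀ x, T.Adj a x → x ∈ A ∨ x = c

theorem split [Fintype α] (T : SimpleGraph α) (hT : T.IsTree) (l : ℕ) (hl : 1 ≤ l)
    (hk : l + 1 ≤ Fintype.card α) :
    ∃ c A, Closed T c A ∧ l ≤ A.card ∧ A.card ≤ 2 * l - 1 := by
  have hex : ∃ n, l ≤ n ∧ ∃ c A, Closed T c A ∧ A.card = n := by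
    have : Nonempty α := Fintype.card_pos_iff.mp (by omega)
    obtain ⟨c⟩ := this
    refine ⟨Fintype.card α - 1, by omega, c, univ.erase c, ⟨notMem_erase _ _, ?_⟩, ?_⟩
    · intro a _ x _
      by_cases hx : x = c
      · right; exact hx
      · left; simp [hx]
    · rw [card_erase_of_mem (mem_univ _), card_univ]
  obtain ⟨hn1, c, A, hA, hcard⟩ := Nat.find_spec hex
  have hmin : ∀ c' A', Closed T c' A' → l ≤ A'.card → A.card ≤ A'.card := by
    intro c' A' h1 h2
    rw [hcard]
    exact Nat.find_min' hex ⟨h2, c', A', h1, rfl⟩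
  refine ⟨c, A, hA, by omega, ?_⟩
  rw [← hcard] at hn1
  obtain ⟨hcA, hA2⟩ := hA
  -- a neighbour of c in A
  obtain ⟨a0, ha0⟩ : A.Nonempty := card_pos.mp (by omega)
  obtain ⟨p⟩ := hT.connected.preconnected a0 c
  obtain ⟨d, -, hd1, hd2⟩ := p.exists_boundary_dart (A : Set α) (by simpa using ha0)
    (by simpa using hcA)
  have hd1' : d.fst ∈ A := by simpa using hd1
  have hd2' : d.snd ∉ A := by simpa using hd2
  have hd3 : d.snd = c := (hA2 _ hd1' _ d.adj).resolve_left hd2'
  set c' := d.fst with hc'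
  have hadj : T.Adj c c' := by
    have := d.adj
    rw [hd3] at this
    exact this.symm
  have hbr : ¬ (T.deleteEdges {s(c, c')}).Reachable c c' := by
    have h1 := (SimpleGraph.isAcyclic_iff_forall_adj_isBridge.mp hT.isAcyclic) hadj
    rw [SimpleGraph.isBridge_iff] at h1
    exact h1
  set T1 := T.deleteEdges {s(c, c')} with hT1
  set A1 := A.filter (fun a => T1.Reachable c' a) with hA1
  have hc'A1 : c' ∈ A1 := by
    rw [hA1, mem_filter]
    exact ⟨hd1', SimpleGraph.Reachable.refl _⟩
  have key : ∀ a ∈ A1, ∀ x, T.Adj a x → x ∈ A1 ∨ (a = c' ∧ x = c) := by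
    intro a ha x hax
    rw [hA1, mem_filter] at ha
    by_cases he : a = c' ∧ x = c
    · right; exact he
    · left
      have h1 : T1.Adj a x := by
        rw [hT1, SimpleGraph.deleteEdges_adj]
        refine ⟨hax, ?_⟩
        rw [Set.mem_singleton_iff, Sym2.eq_iff]
        rintro (⟨h2, h3⟩ | ⟨h2, h3⟩)
        · apply hcA
          rw [← h2]
          exact ha.1
        · exact he ⟨h2, h3⟩
      have h2 : T1.Reachable c' x := ha.2.trans h1.reachable
      rw [hA1, mem_filter]
      refine ⟨?_, h2⟩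
      rcases hA2 a ha.1 x hax with h3 | h3
      · exact h3
      · rw [h3] at h2
        exact absurd h2.symm hbr
  have hcl1 : Closed T c' (A1.erase c') := by
    refine ⟨notMem_erase _ _, ?_⟩
    intro a ha x hax
    rw [mem_erase] at ha
    rcases key a ha.2 x hax with h1 | h1
    · by_cases hx : x = c'
      · right; exact hx
      · left; exact mem_erase.mpr ⟨hx, h1⟩
    · exact absurd h1.1 ha.1
  have hcl2 : Closed T c (A \ A1) := by
    refine ⟨fun h => hcA (mem_sdiff.mp h).1, ?_⟩
    intro a ha x hax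
    rw [mem_sdiff] at ha
    rcases hA2 a ha.1 x hax with h1 | h1
    · left
      rw [mem_sdiff]
      refine ⟨h1, fun h2 => ?_⟩
      rcases key x h2 a hax.symm with h3 | h3
      · exact ha.2 h3
      · apply hcA
        rw [← h3.2]
        exact ha.1
    · right; exact h1
  have hsub : A1 ⊆ A := filter_subset _ _
  have e1 : (A1.erase c').card = A1.card - 1 := card_erase_of_mem hc'A1
  have e2 : (A \ A1).card = A.card - A1.card := card_sdiff_of_subset hsub
  have e3 : 0 < A1.card := card_pos.mpr ⟨c', hc'A1⟩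
  have e4 : A1.card ≤ A.card := card_le_card hsub
  have f1 : (A1.erase c').card < l := by
    by_contra hcon
    push Not at hcon
    have := hmin c' _ hcl1 hcon
    omega
  have f2 : (A \ A1).card < l := by
    by_contra hcon
    push Not at hcon
    have := hmin c _ hcl2 hcon
    omega
  omega

/-- An injection between finite sets. -/
theorem exists_inj [Nonempty V] (A : Finset α) (S : Finset V) (h : A.card ≤ S.card) :
    ∃ f : α → V, (∀ a ∈ A, f a ∈ S) ∧ Set.InjOn f (A : Set α) := by
  have h1 : Fintype.card A ≤ Fintype.card S := by simpa using h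
  obtain ⟨e⟩ := Function.Embedding.nonempty_of_card_le h1
  refine ⟨fun a => if h : a ∈ A then (e ⟨a, h⟩).1 else Classical.arbitrary V, ?_, ?_⟩
  · intro a ha
    simp only [dif_pos ha]
    exact (e ⟨a, ha⟩).2
  · intro a ha b hb hab
    rw [Finset.mem_coe] at ha hb
    simp only [dif_pos ha, dif_pos hb] at hab
    have := e.injective (Subtype.ext hab)
    exact congrArg Subtype.val this

/-- Extension of an injection. -/
theorem extend_inj [Nonempty V] (A S : Finset α) (hSA : S ⊆ A) (Q : Finset V)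
    (hcard : A.card ≤ Q.card)
    (ψ : α → V) (hS : ∀ x ∈ S, ψ x ∈ Q) (hinj : Set.InjOn ψ (S : Set α)) :
    ∃ g : α → V, (∀ x ∈ S, g x = ψ x) ∧ (∀ x ∈ A, g x ∈ Q) ∧ Set.InjOn g (A : Set α) := by
  have h1 : (S.image ψ).card = S.card := card_image_of_injOn hinj
  have h2 : S.image ψ ⊆ Q := by
    intro y hy
    rw [mem_image] at hy
    obtain ⟨x, hx, rfl⟩ := hy
    exact hS x hx
  have h3 : (A \ S).card ≤ (Q \ S.image ψ).card := by
    rw [card_sdiff_of_subset hSA, card_sdiff_of_subset h2, h1]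
    omega
  obtain ⟨f, hf1, hf2⟩ := exists_inj (A \ S) (Q \ S.image ψ) h3
  refine ⟨fun x => if x ∈ S then ψ x else f x, ?_, ?_, ?_⟩
  · intro x hx
    simp only [if_pos hx]
  · intro x hx
    by_cases hxS : x ∈ S
    · simp only [if_pos hxS]
      exact hS x hxS
    · simp only [if_neg hxS]
      exact (mem_sdiff.mp (hf1 x (mem_sdiff.mpr ⟨hx, hxS⟩))).1
  · intro x hx y hy hxy
    rw [Finset.mem_coe] at hx hy
    by_cases hxS : x ∈ S
    · by_cases hyS : y ∈ S
      · simp only [if_pos hxS, if_pos hyS] at hxy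
        exact hinj hxS hyS hxy
      · simp only [if_pos hxS, if_neg hyS] at hxy
        have := (mem_sdiff.mp (hf1 y (mem_sdiff.mpr ⟨hy, hyS⟩))).2
        exact absurd (mem_image.mpr ⟨x, hxS, hxy⟩) this
    · by_cases hyS : y ∈ S
      · simp only [if_neg hxS, if_pos hyS] at hxy
        have := (mem_sdiff.mp (hf1 x (mem_sdiff.mpr ⟨hx, hxS⟩))).2
        exact absurd (mem_image.mpr ⟨y, hyS, hxy.symm⟩) this
      · simp only [if_neg hxS, if_neg hyS] at hxy
        exact hf2 (by simp [hx, hxS]) (by simp [hy, hyS]) hxy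

/-- Two cliques of size `r` with a common vertex and a union of size at least `k` contain every
tree on `k` vertices, when `k - r ≤ r / 2`. -/
theorem two_clique [Fintype α] (T : SimpleGraph α) (hT : T.IsTree) (G : SimpleGraph V)
    {r l : ℕ} (hl : 1 ≤ l) (hr : 2 * l ≤ r) (hk : Fintype.card α = r + l)
    (Q1 Q2 : Finset V) (hQ1 : Q1.card = r) (hQ2 : Q2.card = r)
    (hc1 : G.IsClique (Q1 : Set V)) (hc2 : G.IsClique (Q2 : Set V))
    (v : V) (hv1 : v ∈ Q1) (hv2 : v ∈ Q2) (hU : r + l ≤ (Q1 ∪ Q2).card) :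
    T.IsContained G := by
  have : Nonempty V := ⟨v⟩
  obtain ⟨c, A, ⟨hcA, hA⟩, hA1, hA2⟩ := split T hT l hl (by omega)
  set B := (univ.erase c) \ A with hB
  have hAc : A ⊆ univ.erase c := by
    intro a ha
    rw [mem_erase]
    exact ⟨fun h => hcA (h ▸ ha), mem_univ _⟩
  have hBcard : B.card = r + l - 1 - A.card := by
    rw [hB, card_sdiff_of_subset hAc, card_erase_of_mem (mem_univ _), card_univ, hk]
  obtain ⟨SA, SB, hSA, hSB, hdis, hSAc, hSBc⟩ : ∃ SA SB : Finset V, SA ⊆ Q1.erase v ∧
      SB ⊆ Q2.erase v ∧ Disjoint SA SB ∧ SA.card = A.card ∧ SB.card = B.card := by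
    have e1 : (Q1.erase v).card = r - 1 := by rw [card_erase_of_mem hv1, hQ1]
    have e2 : (Q2.erase v).card = r - 1 := by rw [card_erase_of_mem hv2, hQ2]
    have hsub : Q1 \ Q2 ⊆ Q1.erase v := by
      intro x hx
      rw [mem_sdiff] at hx
      rw [mem_erase]
      exact ⟨fun h => hx.2 (h ▸ hv2), hx.1⟩
    by_cases hc : A.card ≤ (Q1 \ Q2).card
    · obtain ⟨SA, h1, h2⟩ := exists_subset_card_eq hc
      obtain ⟨SB, h3, h4⟩ := exists_subset_card_eq (s := Q2.erase v) (n := B.card) (by omega)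
      refine ⟨SA, SB, h1.trans hsub, h3, ?_, h2, h4⟩
      rw [disjoint_left]
      intro x hx hx'
      exact (mem_sdiff.mp (h1 hx)).2 (mem_of_mem_erase (h3 hx'))
    · push Not at hc
      obtain ⟨SA, h1, h2, h3⟩ := exists_subsuperset_card_eq hsub hc.le (by omega)
      have h4 : B.card ≤ ((Q1 ∪ Q2) \ (insert v SA)).card := by
        have h5 : insert v SA ⊆ Q1 ∪ Q2 := by
          intro x hx
          rw [mem_insert] at hx
          rw [mem_union]
          left
          rcases hx with rfl | hx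
          · exact hv1
          · exact mem_of_mem_erase (h2 hx)
        rw [card_sdiff_of_subset h5, card_insert_of_notMem, h3]
        · omega
        · intro h
          exact notMem_erase _ _ (h2 h)
      obtain ⟨SB, h5, h6⟩ := exists_subset_card_eq h4
      refine ⟨SA, SB, h2, ?_, ?_, h3, h6⟩
      · intro x hx
        have h7 := h5 hx
        rw [mem_sdiff, mem_union, mem_insert, not_or] at h7
        rw [mem_erase]
        refine ⟨h7.2.1, ?_⟩
        rcases h7.1 with h8 | h8
        · by_contra h9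
          exact h7.2.2 (h1 (mem_sdiff.mpr ⟨h8, h9⟩))
        · exact h8
      · rw [disjoint_left]
        intro x hx hx'
        have h7 := h5 hx'
        rw [mem_sdiff, mem_insert, not_or] at h7
        exact h7.2.2 hx
  obtain ⟨fA, hfA1, hfA2⟩ := exists_inj A SA hSAc.ge
  obtain ⟨fB, hfB1, hfB2⟩ := exists_inj B SB hSBc.ge
  set f : α → V := fun x => if x = c then v else if x ∈ A then fA x else fB x with hf
  have fc : f c = v := by simp [hf]
  have fa : ∀ x ∈ A, f x = fA x := by
    intro x hx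
    have : x ≠ c := fun h => hcA (h ▸ hx)
    simp [hf, this, hx]
  have fb : ∀ x ∈ B, f x = fB x := by
    intro x hx
    rw [hB, mem_sdiff, mem_erase] at hx
    simp [hf, hx.1.1, hx.2]
  have hcov : ∀ x, x = c ∨ x ∈ A ∨ x ∈ B := by
    intro x
    by_cases h1 : x = c
    · left; exact h1
    · by_cases h2 : x ∈ A
      · right; left; exact h2
      · right; right
        rw [hB, mem_sdiff, mem_erase]
        exact ⟨⟨h1, mem_univ _⟩, h2⟩
  have gA : ∀ x ∈ A, f x ∈ Q1 ∧ f x ≠ v ∧ f x ∈ SA := by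
    intro x hx
    rw [fa x hx]
    have h1 := hSA (hfA1 x hx)
    rw [mem_erase] at h1
    exact ⟨h1.2, h1.1, hfA1 x hx⟩
  have gB : ∀ x ∈ B, f x ∈ Q2 ∧ f x ≠ v ∧ f x ∈ SB := by
    intro x hx
    rw [fb x hx]
    have h1 := hSB (hfB1 x hx)
    rw [mem_erase] at h1
    exact ⟨h1.2, h1.1, hfB1 x hx⟩
  have hBc : ∀ x ∈ B, x ≠ c := by
    intro x hx
    rw [hB, mem_sdiff, mem_erase] at hx
    exact hx.1.1
  have hBA : ∀ x ∈ B, x ∉ A := by
    intro x hx
    rw [hB, mem_sdiff] at hx
    exact hx.2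
  have hinj : Function.Injective f := by
    intro x y hxy
    rcases hcov x with hx | hx | hx
    · rcases hcov y with hy | hy | hy
      · rw [hx, hy]
      · rw [hx, fc] at hxy
        exact absurd hxy.symm (gA y hy).2.1
      · rw [hx, fc] at hxy
        exact absurd hxy.symm (gB y hy).2.1
    · rcases hcov y with hy | hy | hy
      · rw [hy, fc] at hxy
        exact absurd hxy (gA x hx).2.1
      · rw [fa x hx, fa y hy] at hxy
        exact hfA2 hx hy hxy
      · have h1 := (gA x hx).2.2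
        rw [hxy] at h1
        exact absurd (gB y hy).2.2 (disjoint_left.mp hdis h1)
    · rcases hcov y with hy | hy | hy
      · rw [hy, fc] at hxy
        exact absurd hxy (gB x hx).2.1
      · have h1 := (gB x hx).2.2
        rw [hxy] at h1
        exact absurd h1 (disjoint_left.mp hdis (gA y hy).2.2)
      · rw [fb x hx, fb y hy] at hxy
        exact hfB2 hx hy hxy
  have hadj : ∀ x y, T.Adj x y → G.Adj (f x) (f y) := by
    intro x y hxy
    have hne : f x ≠ f y := fun h => hxy.ne (hinj h)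
    rcases hcov x with hx | hx | hx
    · rcases hcov y with hy | hy | hy
      · exact absurd (hx.trans hy.symm) hxy.ne
      · exact hc1 (by rw [hx, fc]; exact hv1) (gA y hy).1 hne
      · exact hc2 (by rw [hx, fc]; exact hv2) (gB y hy).1 hne
    · rcases hcov y with hy | hy | hy
      · exact hc1 (gA x hx).1 (by rw [hy, fc]; exact hv1) hne
      · exact hc1 (gA x hx).1 (gA y hy).1 hne
      · rcases hA x hx y hxy with h | h
        · exact absurd h (hBA y hy)
        · exact absurd h (hBc y hy)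
    · rcases hcov y with hy | hy | hy
      · exact hc2 (gB x hx).1 (by rw [hy, fc]; exact hv2) hne
      · rcases hA y hy x hxy.symm with h | h
        · exact absurd h (hBA x hx)
        · exact absurd h (hBc x hx)
      · exact hc2 (gB x hx).1 (gB y hy).1 hne
  exact ⟨⟨⟨f, fun {a b} h => hadj a b h⟩, hinj⟩⟩

/-- Assembling an embedding from a clique and an independent set. -/
theorem assemble [Fintype α] [Nonempty V] (T : SimpleGraph α) (G : SimpleGraph V) (Z : Finset α)
    (hZ : ∀ z ∈ Z, ∀ x, T.Adj z x → x ∉ Z) (Q : Finset V) (hQ : G.IsClique (Q : Set V))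
    (hcard : Fintype.card α ≤ Q.card + Z.card) (φ ψ : α → V) (hφ : Set.InjOn φ (Z : Set α))
    (hφQ : ∀ z ∈ Z, φ z ∉ Q) (hψQ : ∀ z ∈ Z, ∀ x, T.Adj z x → ψ x ∈ Q)
    (hψ : ∀ z ∈ Z, ∀ z' ∈ Z, ∀ x x', T.Adj z x → T.Adj z' x' → ψ x = ψ x' → x = x')
    (hadj : ∀ z ∈ Z, ∀ x, T.Adj z x → G.Adj (φ z) (ψ x)) :
    T.IsContained G := by
  set S : Finset α := univ.filter (fun x => ∃ z ∈ Z, T.Adj z x) with hS
  have hSA : S ⊆ univ \ Z := by
    intro x hx
    rw [hS, mem_filter] at hx
    obtain ⟨-, z, hz, hzx⟩ := hx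
    rw [mem_sdiff]
    exact ⟨mem_univ _, hZ z hz x hzx⟩
  have hc : (univ \ Z).card ≤ Q.card := by
    rw [card_sdiff_of_subset (subset_univ _), card_univ]
    omega
  obtain ⟨g, hg1, hg2, hg3⟩ := extend_inj (univ \ Z) S hSA Q hc ψ
    (by
      intro x hx
      rw [hS, mem_filter] at hx
      obtain ⟨-, z, hz, hzx⟩ := hx
      exact hψQ z hz x hzx)
    (by
      intro x hx y hy hxy
      rw [Finset.mem_coe, hS, mem_filter] at hx hy
      obtain ⟨-, z, hz, hzx⟩ := hx
      obtain ⟨-, z', hz', hzy⟩ := hy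
      exact hψ z hz z' hz' x y hzx hzy hxy)
  have hg2' : ∀ x, x ∉ Z → g x ∈ Q := fun x hx => hg2 x (by simp [hx])
  have hgadj : ∀ z ∈ Z, ∀ x, T.Adj z x → G.Adj (φ z) (g x) := by
    intro z hz x hzx
    rw [hg1 x (by rw [hS, mem_filter]; exact ⟨mem_univ _, z, hz, hzx⟩)]
    exact hadj z hz x hzx
  set f : α → V := fun x => if x ∈ Z then φ x else g x with hf
  have f1 : ∀ x ∈ Z, f x = φ x := fun x hx => by simp [hf, hx]
  have f2 : ∀ x, x ∉ Z → f x = g x := fun x hx => by simp [hf, hx]
  have hinj : Function.Injective f := by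
    intro x y hxy
    by_cases hx : x ∈ Z
    · by_cases hy : y ∈ Z
      · rw [f1 x hx, f1 y hy] at hxy
        exact hφ hx hy hxy
      · rw [f1 x hx, f2 y hy] at hxy
        exact absurd (hg2' y hy) (hxy ▸ hφQ x hx)
    · by_cases hy : y ∈ Z
      · rw [f2 x hx, f1 y hy] at hxy
        exact absurd (hg2' x hx) (hxy ▸ hφQ y hy)
      · rw [f2 x hx, f2 y hy] at hxy
        exact hg3 (by simp [hx]) (by simp [hy]) hxy
  have hadj' : ∀ x y, T.Adj x y → G.Adj (f x) (f y) := by
    intro x y hxy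
    have hne : f x ≠ f y := fun h => hxy.ne (hinj h)
    by_cases hx : x ∈ Z
    · have hy : y ∉ Z := hZ x hx y hxy
      rw [f1 x hx, f2 y hy]
      exact hgadj x hx y hxy
    · by_cases hy : y ∈ Z
      · rw [f2 x hx, f1 y hy]
        exact (hgadj y hy x hxy.symm).symm
      · refine hQ ?_ ?_ hne
        · rw [f2 x hx]; exact hg2' x hx
        · rw [f2 y hy]; exact hg2' y hy
  exact ⟨⟨⟨f, fun {a b} h => hadj' a b h⟩, hinj⟩⟩

end Pool.Agent.H28.TreeClique
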