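import Pool.Agent.H28.TreeClique.Split

set_option autoImplicit false

namespace Pool.Agent.H28.TreeClique

open Finset Classical

variable {V α : Type*}

lemma star_arith (y x l s c : ℤ) (hc : 1 ≤ c) (hy : 2 * c ≤ y) (h1 : s * c + y ≤ l)
    (h2 : 2 * l ≤ x + s) (hs : 0 ≤ s) (h3 : y * (x - (l - 1)) ≤ x * (c - 1)) : False := by
  have h4 : (y - c + 1) * (2 * l - s) ≤ (y - c + 1) * x :=
    mul_le_mul_of_nonneg_left (by linarith) (by linarith)
  have h5 : y * (l - s + 1) ≤ (c - 1) * (2 * l - s) := by nlinarith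
  have h6 : s ≤ s * c := by nlinarith
  have h7 : 0 ≤ l - s + 1 := by nlinarith
  have h8 : 2 * c * (l - s + 1) ≤ y * (l - s + 1) := mul_le_mul_of_nonneg_right hy h7
  nlinarith

theorem star_pack [Nonempty V] (R : V → V → Prop) (p : α → α) (l c0 : ℕ) (n : ℕ) :
    ∀ (P Z : Finset α) (X Y : Finset V) (s : ℕ), P.card = n →
    (∀ z ∈ Z, p z ∈ P) → (∀ q ∈ P, 1 ≤ (Z.filter (fun z => p z = q)).card) →
    (∀ q ∈ P, (Z.filter (fun z => p z = q)).card ≤ c0) →
    Y.card = Z.card + c0 → (∀ q ∈ P, s * (Z.filter (fun z => p z = q)).card + Y.card ≤ l) →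
    2 * l ≤ X.card + s → (∀ y ∈ Y, (X.filter (fun x => ¬ R y x)).card ≤ l - 1) →
    ∃ ψ φ : α → V, (∀ q ∈ P, ψ q ∈ X) ∧ Set.InjOn ψ (P : Set α) ∧ (∀ z ∈ Z, φ z ∈ Y) ∧
      Set.InjOn φ (Z : Set α) ∧ ∀ z ∈ Z, R (φ z) (ψ (p z)) := by
  induction n with
  | zero =>
    intro P Z X Y s hP hZP _ _ _ _ _ _
    rw [card_eq_zero] at hP
    subst hP
    have hZ : Z = ∅ := by
      rw [eq_empty_iff_forall_notMem]
      intro z hz
      exact absurd (hZP z hz) (notMem_empty _)
    subst hZ
    exact ⟨fun _ => Classical.arbitrary V, fun _ => Classical.arbitrary V, by simp, by simp,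
      by simp, by simp, by simp⟩
  | succ n ih =>
    intro P Z X Y s hP hZP h1 hc0 hYZ hs hX hmiss
    have hPne : P.Nonempty := card_pos.mp (by omega)
    obtain ⟨q, hqP, hqmax⟩ := exists_max_image P
      (fun q => (Z.filter (fun z => p z = q)).card) hPne
    set F := Z.filter (fun z => p z = q) with hF
    set c := F.card with hc
    have hc1 : 1 ≤ c := h1 q hqP
    have hcc0 : c ≤ c0 := hc0 q hqP
    have hFZ : F ⊆ Z := filter_subset _ _
    have hcZ : c ≤ Z.card := card_le_card hFZ
    -- a good vertex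
    obtain ⟨x, hxX, hx⟩ : ∃ x ∈ X, c ≤ (Y.filter (fun y => R y x)).card := by
      by_contra hcon
      push Not at hcon
      have e1 : ∑ x ∈ X, (Y.filter (fun y => R y x)).card
          = ∑ y ∈ Y, (X.filter (fun x => R y x)).card := by
        simp only [card_filter]
        exact sum_comm
      have e2 : ∑ x ∈ X, (Y.filter (fun y => R y x)).card ≤ X.card * (c - 1) := by
        rw [← smul_eq_mul]
        apply sum_le_card_nsmul
        intro x hx
        have := hcon x hx
        omega
      have e3 : Y.card * (X.card - (l - 1)) ≤ ∑ y ∈ Y, (X.filter (fun x => R y x)).card := by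
        rw [← smul_eq_mul]
        apply card_nsmul_le_sum
        intro y hy
        have g1 := hmiss y hy
        have g2 := card_filter_add_card_filter_not (s := X) (fun x => R y x)
        omega
      have e4 : Y.card * (X.card - (l - 1)) ≤ X.card * (c - 1) := e3.trans (e1 ▸ e2)
      have hsl : s * c + Y.card ≤ l := hs q hqP
      have hsc : s ≤ s * c := Nat.le_mul_of_pos_right _ hc1
      have hxl : l - 1 ≤ X.card := by omega
      have hl1 : 1 ≤ l := by omega
      zify [hxl, hl1, hc1] at e4
      apply star_arith (Y.card : ℤ) (X.card : ℤ) (l : ℤ) (s : ℤ) (c : ℤ) (by exact_mod_cast hc1)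
        (by push_cast [hYZ]; omega) (by exact_mod_cast hsl) (by exact_mod_cast hX)
        (by positivity) e4
    obtain ⟨A, hA1, hA2⟩ := exists_subset_card_eq hx
    have hAY : A ⊆ Y := hA1.trans (filter_subset _ _)
    obtain ⟨φF, hφ1, hφ2⟩ := exists_inj F A hA2.ge
    have hfib : ∀ q' ∈ P.erase q, ((Z.filter (fun z => p z ≠ q)).filter (fun z => p z = q'))
        = Z.filter (fun z => p z = q') := by
      intro q' hq'
      rw [mem_erase] at hq'
      ext z
      simp only [mem_filter]
      constructor
      · rintro ⟨⟨g1, -⟩, g2⟩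
        exact ⟨g1, g2⟩
      · rintro ⟨g1, g2⟩
        exact ⟨⟨g1, by rw [g2]; exact hq'.1⟩, g2⟩
    have hcardZ : (Z.filter (fun z => p z ≠ q)).card = Z.card - c := by
      have : c + (Z.filter (fun z => p z ≠ q)).card = Z.card :=
        card_filter_add_card_filter_not (s := Z) (fun z => p z = q)
      exact (Nat.sub_eq_of_eq_add' this.symm).symm
    have hcardY : (Y \ A).card = Y.card - c := by
      rw [card_sdiff_of_subset hAY, hA2]
    obtain ⟨ψ, φ, k1, k2, k3, k4, k5⟩ := ih (P.erase q) (Z.filter (fun z => p z ≠ q))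
      (X.erase x) (Y \ A) (s + 1) (by rw [card_erase_of_mem hqP, hP]; rfl)
      (by
        intro z hz
        rw [mem_filter] at hz
        exact mem_erase.mpr ⟨hz.2, hZP z hz.1⟩)
      (by
        intro q' hq'
        rw [hfib q' hq']
        exact h1 q' (mem_of_mem_erase hq'))
      (by
        intro q' hq'
        rw [hfib q' hq']
        exact hc0 q' (mem_of_mem_erase hq'))
      (by rw [hcardY, hcardZ]; omega)
      (by
        intro q' hq'
        rw [hfib q' hq', hcardY]
        have g1 := hs q' (mem_of_mem_erase hq')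
        have g2 := hqmax q' (mem_of_mem_erase hq')
        rw [add_mul, one_mul]
        omega)
      (by rw [card_erase_of_mem hxX]; have := card_pos.mpr ⟨x, hxX⟩; omega)
      (by
        intro y hy
        rw [mem_sdiff] at hy
        refine le_trans (card_le_card ?_) (hmiss y hy.1)
        exact filter_subset_filter _ (erase_subset _ _))
    refine ⟨fun z => if z = q then x else ψ z, fun z => if p z = q then φF z else φ z,
      ?_, ?_, ?_, ?_, ?_⟩
    · intro q' hq'
      by_cases h : q' = q
      · simp only [if_pos h]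
        exact hxX
      · simp only [if_neg h]
        exact mem_of_mem_erase (k1 q' (mem_erase.mpr ⟨h, hq'⟩))
    · intro a ha b hb hab
      rw [Finset.mem_coe] at ha hb
      by_cases h : a = q
      · by_cases h' : b = q
        · rw [h, h']
        · simp only [if_pos h, if_neg h'] at hab
          have := k1 b (mem_erase.mpr ⟨h', hb⟩)
          rw [← hab] at this
          exact absurd this (notMem_erase _ _)
      · by_cases h' : b = q
        · simp only [if_neg h, if_pos h'] at hab
          have := k1 a (mem_erase.mpr ⟨h, ha⟩)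
          rw [hab] at this
          exact absurd this (notMem_erase _ _)
        · simp only [if_neg h, if_neg h'] at hab
          exact k2 (by simp [h, ha]) (by simp [h', hb]) hab
    · intro z hz
      by_cases h : p z = q
      · simp only [if_pos h]
        exact hAY (hφ1 z (by rw [hF, mem_filter]; exact ⟨hz, h⟩))
      · simp only [if_neg h]
        exact (mem_sdiff.mp (k3 z (mem_filter.mpr ⟨hz, h⟩))).1
    · intro a ha b hb hab
      rw [Finset.mem_coe] at ha hb
      by_cases h : p a = q
      · by_cases h' : p b = q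
        · simp only [if_pos h, if_pos h'] at hab
          exact hφ2 (by simp [hF, ha, h]) (by simp [hF, hb, h']) hab
        · simp only [if_pos h, if_neg h'] at hab
          have g1 := hφ1 a (by rw [hF, mem_filter]; exact ⟨ha, h⟩)
          have g2 := (mem_sdiff.mp (k3 b (mem_filter.mpr ⟨hb, h'⟩))).2
          rw [← hab] at g2
          exact absurd g1 g2
      · by_cases h' : p b = q
        · simp only [if_neg h, if_pos h'] at hab
          have g1 := hφ1 b (by rw [hF, mem_filter]; exact ⟨hb, h'⟩)
          have g2 := (mem_sdiff.mp (k3 a (mem_filter.mpr ⟨ha, h⟩))).2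
          rw [hab] at g2
          exact absurd g1 g2
        · simp only [if_neg h, if_neg h'] at hab
          exact k4 (by simp [ha, h]) (by simp [hb, h']) hab
    · intro z hz
      by_cases h : p z = q
      · simp only [if_pos h]
        have g1 := hφ1 z (by rw [hF, mem_filter]; exact ⟨hz, h⟩)
        exact (mem_filter.mp (hA1 g1)).2
      · simp only [if_neg h]
        exact k5 z (mem_filter.mpr ⟨hz, h⟩)

lemma leaf_not_adj_leaf [Fintype α] (T : SimpleGraph α) (hT : T.IsTree)
    (hk : 3 ≤ Fintype.card α) (z x : α) (hz : T.degree z = 1) (hzx : T.Adj z x)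
    (hx : T.degree x = 1) : False := by
  have hz' := (SimpleGraph.degree_eq_one_iff_existsUnique_adj.mp hz)
  have hx' := (SimpleGraph.degree_eq_one_iff_existsUnique_adj.mp hx)
  obtain ⟨w, hw⟩ : ∃ w : α, w ∉ ({z, x} : Finset α) := by
    by_contra hcon
    push Not at hcon
    have : (univ : Finset α) ⊆ {z, x} := fun a _ => hcon a
    have h1 := card_le_card this
    rw [card_univ] at h1
    have h2 : ({z, x} : Finset α).card ≤ 2 := card_le_two
    omega
  obtain ⟨p⟩ := hT.connected.preconnected z w
  obtain ⟨d, -, hd1, hd2⟩ := p.exists_boundary_dart (({z, x} : Finset α) : Set α)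
    (by simp) (by simpa using hw)
  have hadj := d.adj
  rw [Finset.mem_coe, mem_insert, mem_singleton] at hd1 hd2
  rcases hd1 with h | h
  · rw [h] at hadj
    exact hd2 (Or.inr (hz'.unique hadj hzx))
  · rw [h] at hadj
    exact hd2 (Or.inl (hx'.unique hadj hzx.symm))

/-- Trees with at least `l` leaves. -/
theorem caseA [Fintype α] (T : SimpleGraph α) (hT : T.IsTree) (G : SimpleGraph V)
    {r l : ℕ} (hl : 1 ≤ l) (hr : 2 * l + 1 ≤ r) (hk : Fintype.card α = r + l)
    (Q Y : Finset V) (hQ1 : Q.card = r) (hQ : G.IsClique (Q : Set V)) (v : V) (hv : v ∈ Q)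
    (hY : Y.card = l) (hYQ : ∀ y ∈ Y, y ∉ Q) (hYv : ∀ y ∈ Y, G.Adj y v)
    (hmiss : ∀ y ∈ Y, (Q.filter (fun x => ¬ G.Adj y x)).card ≤ l - 1)
    (hL : l ≤ (univ.filter (fun x => T.degree x = 1)).card) :
    T.IsContained G := by
  have : Nonempty V := ⟨v⟩
  obtain ⟨Z, hZL, hZc⟩ := exists_subset_card_eq hL
  have hleaf : ∀ z ∈ Z, T.degree z = 1 := fun z hz => (mem_filter.mp (hZL hz)).2
  have hpar : ∀ z, ∃ x, z ∈ Z → (T.Adj z x ∧ ∀ y, T.Adj z y → y = x) := by
    intro z
    by_cases hz : z ∈ Z
    · obtain ⟨x, hx1, hx2⟩ :=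
        SimpleGraph.degree_eq_one_iff_existsUnique_adj.mp (hleaf z hz)
      exact ⟨x, fun _ => ⟨hx1, hx2⟩⟩
    · exact ⟨z, fun h => absurd h hz⟩
  choose p hp using hpar
  have hZind : ∀ z ∈ Z, ∀ x, T.Adj z x → x ∉ Z := by
    intro z hz x hzx hx
    exact leaf_not_adj_leaf T hT (by omega) z x (hleaf z hz) hzx (hleaf x hx)
  set P := Z.image p with hP
  have hPne : P.Nonempty := by
    rw [hP, image_nonempty]
    exact card_pos.mp (by omega)
  obtain ⟨p0, hp0P, hp0max⟩ := exists_max_image P
    (fun q => (Z.filter (fun z => p z = q)).card) hPne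
  set c0 := (Z.filter (fun z => p z = p0)).card with hc0
  set Z' := Z.filter (fun z => p z ≠ p0) with hZ'
  have hZ'Z : Z' ⊆ Z := filter_subset _ _
  have hcount : Z'.card + c0 = l := by
    have : (Z.filter (fun z => p z = p0)).card + (Z.filter (fun z => p z ≠ p0)).card = Z.card :=
      card_filter_add_card_filter_not (s := Z) (fun z => p z = p0)
    rw [hZc] at this
    rw [hZ', hc0]
    omega
  have hfib : ∀ q' ∈ P.erase p0, (Z'.filter (fun z => p z = q'))
      = Z.filter (fun z => p z = q') := by
    intro q' hq'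
    rw [mem_erase] at hq'
    ext z
    simp only [hZ', mem_filter]
    constructor
    · rintro ⟨⟨g1, -⟩, g2⟩
      exact ⟨g1, g2⟩
    · rintro ⟨g1, g2⟩
      exact ⟨⟨g1, by rw [g2]; exact hq'.1⟩, g2⟩
  obtain ⟨ψ, φ, k1, k2, k3, k4, k5⟩ := star_pack (fun y x => G.Adj y x) p l c0
    (P.erase p0).card (P.erase p0) Z' (Q.erase v) Y 0 rfl
    (by
      intro z hz
      rw [hZ', mem_filter] at hz
      exact mem_erase.mpr ⟨hz.2, mem_image_of_mem p hz.1⟩)
    (by
      intro q hq
      rw [hfib q hq]
      have h1 := mem_of_mem_erase hq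
      rw [hP, mem_image] at h1
      obtain ⟨z, hz, hzq⟩ := h1
      exact card_pos.mpr ⟨z, mem_filter.mpr ⟨hz, hzq⟩⟩)
    (by
      intro q hq
      rw [hfib q hq]
      exact hp0max q (mem_of_mem_erase hq))
    (by rw [hY, hcount])
    (by
      intro q _
      rw [zero_mul, zero_add, hY])
    (by rw [card_erase_of_mem hv, hQ1]; omega)
    (by
      intro y hy
      exact (card_le_card (filter_subset_filter _ (erase_subset _ _))).trans (hmiss y hy))
  obtain ⟨g, hg1, hg2, hg3⟩ := extend_inj Z Z' hZ'Z Y (by rw [hZc, hY]) φ k3 k4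
  refine assemble T G Z hZind Q hQ (by rw [hk, hQ1, hZc]) g
    (fun x => if x = p0 then v else ψ x) hg3 (fun z hz => hYQ _ (hg2 z hz)) ?_ ?_ ?_
  · intro z hz x hzx
    have hx : x = p z := (hp z hz).2 x hzx
    by_cases h : x = p0
    · simp only [if_pos h]
      exact hv
    · simp only [if_neg h]
      exact mem_of_mem_erase (k1 x (mem_erase.mpr ⟨h, hx ▸ mem_image_of_mem p hz⟩))
  · intro z hz z' hz' x x' hzx hzx' hxx
    have hx : x = p z := (hp z hz).2 x hzx
    have hx' : x' = p z' := (hp z' hz').2 x' hzx'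
    by_cases h : x = p0
    · by_cases h' : x' = p0
      · rw [h, h']
      · simp only [if_pos h, if_neg h'] at hxx
        have := k1 x' (mem_erase.mpr ⟨h', hx' ▸ mem_image_of_mem p hz'⟩)
        rw [← hxx] at this
        exact absurd this (notMem_erase _ _)
    · by_cases h' : x' = p0
      · simp only [if_neg h, if_pos h'] at hxx
        have := k1 x (mem_erase.mpr ⟨h, hx ▸ mem_image_of_mem p hz⟩)
        rw [hxx] at this
        exact absurd this (notMem_erase _ _)
      · simp only [if_neg h, if_neg h'] at hxx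
        have m1 : x ∈ P := hx ▸ mem_image_of_mem p hz
        have m2 : x' ∈ P := hx' ▸ mem_image_of_mem p hz'
        exact k2 (by simp [h, m1]) (by simp [h', m2]) hxx
  · intro z hz x hzx
    have hx : x = p z := (hp z hz).2 x hzx
    by_cases h : x = p0
    · simp only [if_pos h]
      exact hYv _ (hg2 z hz)
    · simp only [if_neg h]
      have hzZ' : z ∈ Z' := by
        rw [hZ', mem_filter]
        exact ⟨hz, hx ▸ h⟩
      rw [hg1 z hzZ', hx]
      exact k5 z hzZ'

end Pool.Agent.H28.TreeClique
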