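import Pool.Agent.H28.TreeClique.Split

set_option autoImplicit false

namespace Pool.Agent.H28.TreeClique

open Finset Classical

variable {V α : Type*}

lemma tree_excess [Fintype α] (T : SimpleGraph α) (hT : T.IsTree) (hk : 2 ≤ Fintype.card α) :
    ∑ b, (T.degree b - 2) + 2 = (univ.filter (fun x => T.degree x = 1)).card := by
  have hpos : ∀ b, 1 ≤ T.degree b := by
    intro b
    have : Nontrivial α := Fintype.one_lt_card_iff_nontrivial.mp (by omega)
    exact hT.connected.preconnected.degree_pos_of_nontrivial b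
  have h1 : ∀ b, T.degree b + (if T.degree b = 1 then 1 else 0) = 2 + (T.degree b - 2) := by
    intro b
    have := hpos b
    split_ifs <;> omega
  have h2 : ∑ b, T.degree b + (univ.filter (fun x => T.degree x = 1)).card
      = 2 * Fintype.card α + ∑ b, (T.degree b - 2) := by
    rw [card_filter, ← sum_add_distrib, sum_congr rfl (fun b _ => h1 b), sum_add_distrib,
      sum_const, card_univ, smul_eq_mul, mul_comm]
  have h3 := T.sum_degrees_eq_twice_card_edges
  have h4 := hT.card_edgeFinset
  rw [h3] at h2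
  omega

theorem exists_Z [Fintype α] (T : SimpleGraph α) (hT : T.IsTree) (l : ℕ)
    (hk2 : 2 ≤ Fintype.card α) (hk : 4 * l ≤ Fintype.card α + 6)
    (hL : (univ.filter (fun x => T.degree x = 1)).card < l) :
    ∃ Z : Finset α, Z.card = l ∧ (∀ z ∈ Z, T.degree z ≤ 2) ∧ (∀ z ∈ Z, ∀ x, T.Adj z x → x ∉ Z) ∧
      ∀ x, (Z.filter (fun z => T.Adj x z)).card ≤ 2 := by
  obtain ⟨C⟩ := hT.colorable_two
  set D : Fin 2 → Finset α := fun i => univ.filter (fun x => T.degree x ≤ 2 ∧ C x = i) with hD
  have hR : ∀ (i : Fin 2) (b : α), ∃ R : Finset α, R ⊆ (D i).filter (fun z => T.Adj b z) ∧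
      R.card = ((D i).filter (fun z => T.Adj b z)).card - 2 :=
    fun i b => exists_subset_card_eq (Nat.sub_le _ _)
  choose R hR1 hR2 using hR
  set Z : Fin 2 → Finset α := fun i => D i \ univ.biUnion (R i) with hZ
  have hZD : ∀ i, Z i ⊆ D i := fun i => sdiff_subset
  -- the three properties
  have p1 : ∀ i, ∀ z ∈ Z i, T.degree z ≤ 2 := by
    intro i z hz
    have := hZD i hz
    rw [hD] at this
    simp only [mem_filter] at this
    exact this.2.1
  have p2 : ∀ i, ∀ z ∈ Z i, ∀ x, T.Adj z x → x ∉ Z i := by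
    intro i z hz x hzx hx
    have h1 := hZD i hz
    have h2 := hZD i hx
    rw [hD] at h1 h2
    simp only [mem_filter] at h1 h2
    exact C.valid hzx (h1.2.2.trans h2.2.2.symm)
  have p3 : ∀ i, ∀ x, ((Z i).filter (fun z => T.Adj x z)).card ≤ 2 := by
    intro i x
    have h1 : (Z i).filter (fun z => T.Adj x z) ⊆ (D i).filter (fun z => T.Adj x z) \ R i x := by
      intro z hz
      rw [mem_filter, hZ] at hz
      simp only [mem_sdiff, mem_biUnion, mem_univ, true_and, not_exists] at hz
      rw [mem_sdiff, mem_filter]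
      exact ⟨⟨hz.1.1, hz.2⟩, hz.1.2 x⟩
    have h2 := card_le_card h1
    rw [card_sdiff_of_subset (hR1 i x), hR2] at h2
    omega
  -- counting
  have c1 : ∀ i, (D i).card ≤ (Z i).card + ∑ b, (R i b).card := by
    intro i
    have h1 : D i ⊆ Z i ∪ univ.biUnion (R i) := by
      intro x hx
      rw [mem_union, hZ]
      simp only [mem_sdiff]
      by_cases h : x ∈ univ.biUnion (R i)
      · right; exact h
      · left; exact ⟨hx, h⟩
    calc (D i).card ≤ (Z i ∪ univ.biUnion (R i)).card := card_le_card h1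
      _ ≤ (Z i).card + (univ.biUnion (R i)).card := card_union_le _ _
      _ ≤ _ := by
        gcongr
        exact card_biUnion_le
  have c2 : ∀ b, (R 0 b).card + (R 1 b).card ≤ T.degree b - 2 := by
    intro b
    have h0 : ∀ i, i = C b → (R i b).card = 0 := by
      intro i hi
      have : (D i).filter (fun z => T.Adj b z) = ∅ := by
        rw [filter_eq_empty_iff]
        intro z hz hbz
        rw [hD] at hz
        simp only [mem_filter] at hz
        exact C.valid hbz (hi.symm.trans hz.2.2.symm)
      rw [hR2, this]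
      rfl
    have h1 : ∀ i, (R i b).card ≤ T.degree b - 2 := by
      intro i
      rw [hR2]
      have : (D i).filter (fun z => T.Adj b z) ⊆ T.neighborFinset b := by
        intro z hz
        rw [mem_filter] at hz
        rw [SimpleGraph.mem_neighborFinset]
        exact hz.2
      have h2 := card_le_card this
      rw [SimpleGraph.card_neighborFinset_eq_degree] at h2
      omega
    rcases (by omega : C b = 0 ∨ C b = 1) with h | h
    · rw [h0 0 h.symm, zero_add]
      exact h1 1
    · rw [h0 1 h.symm, add_zero]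
      exact h1 0
  have c3 : (D 0).card + (D 1).card + ∑ b, (T.degree b - 2) ≥ Fintype.card α := by
    have h1 : (D 0).card + (D 1).card = (univ.filter (fun x => T.degree x ≤ 2)).card := by
      rw [hD]
      simp only [card_filter]
      rw [← sum_add_distrib]
      apply sum_congr rfl
      intro b _
      rcases (by omega : C b = 0 ∨ C b = 1) with h | h <;> simp [h]
    have h2 : (univ.filter (fun x => ¬ T.degree x ≤ 2)).card ≤ ∑ b, (T.degree b - 2) := by
      rw [card_filter]
      apply sum_le_sum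
      intro b _
      split_ifs <;> omega
    have h3 := card_filter_add_card_filter_not (s := (univ : Finset α)) (fun x => T.degree x ≤ 2)
    rw [card_univ] at h3
    omega
  have c4 : ∑ b, (R 0 b).card + ∑ b, (R 1 b).card ≤ ∑ b, (T.degree b - 2) := by
    rw [← sum_add_distrib]
    exact sum_le_sum fun b _ => c2 b
  have c5 := tree_excess T hT hk2
  have c6 : 2 * l ≤ (Z 0).card + (Z 1).card := by
    have := c1 0
    have := c1 1
    omega
  obtain ⟨i, hi⟩ : ∃ i, l ≤ (Z i).card := by
    by_contra hcon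
    push Not at hcon
    have := hcon 0
    have := hcon 1
    omega
  obtain ⟨Z', h1, h2⟩ := exists_subset_card_eq hi
  refine ⟨Z', h2, fun z hz => p1 i z (h1 hz), fun z hz x hzx hx => p2 i z (h1 hz) x hzx (h1 hx),
    fun x => (card_le_card (filter_subset_filter _ h1)).trans (p3 i x)⟩

/-- Trees with fewer than `l` leaves. -/
theorem caseB [Fintype α] (T : SimpleGraph α) (hT : T.IsTree) (G : SimpleGraph V) [Nonempty V]
    {r l : ℕ} (hl : 1 ≤ l) (hr : 3 * l ≤ r + 1) (hk : Fintype.card α = r + l)
    (Q Y : Finset V) (hQ1 : Q.card = r) (hQ : G.IsClique (Q : Set V))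
    (hY : Y.card = l) (hYQ : ∀ y ∈ Y, y ∉ Q)
    (hmiss : ∀ y ∈ Y, (Q.filter (fun x => ¬ G.Adj y x)).card ≤ l - 1)
    (hL : (univ.filter (fun x => T.degree x = 1)).card < l) :
    T.IsContained G := by
  obtain ⟨Z, hZc, hZdeg, hZind, hZ2⟩ := exists_Z T hT l (by omega) (by omega) hL
  obtain ⟨φ, hφ1, hφ2⟩ := exists_inj Z Y (by rw [hZc, hY])
  set NZ : Finset α := univ.filter (fun x => ∃ z ∈ Z, T.Adj z x) with hNZ
  set t : α → Finset V := fun x => Q.filter (fun q => ∀ z ∈ Z, T.Adj z x → G.Adj (φ z) q) with ht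
  have ht1 : ∀ x, r ≤ (t x).card + (Z.filter (fun z => T.Adj x z)).card * (l - 1) := by
    intro x
    have h1 : Q ⊆ t x ∪ (Z.filter (fun z => T.Adj x z)).biUnion
        (fun z => Q.filter (fun q => ¬ G.Adj (φ z) q)) := by
      intro q hq
      rw [mem_union]
      by_cases h : ∀ z ∈ Z, T.Adj z x → G.Adj (φ z) q
      · left
        rw [ht]
        simp only [mem_filter]
        exact ⟨hq, h⟩
      · right
        push Not at h
        obtain ⟨z, hz, hzx, hn⟩ := h
        rw [mem_biUnion]
        exact ⟨z, mem_filter.mpr ⟨hz, hzx.symm⟩, mem_filter.mpr ⟨hq, hn⟩⟩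
    have h2 := card_le_card h1
    rw [hQ1] at h2
    refine h2.trans ((card_union_le _ _).trans ?_)
    gcongr
    apply card_biUnion_le_card_mul
    intro z hz
    exact hmiss _ (hφ1 z (mem_filter.mp hz).1)
  have hsumdeg : ∑ z ∈ Z, T.degree z ≤ 2 * l := by
    calc ∑ z ∈ Z, T.degree z ≤ ∑ z ∈ Z, 2 := sum_le_sum hZdeg
      _ = 2 * l := by rw [sum_const, hZc, smul_eq_mul, mul_comm]
  have hinc : ∀ s : Finset α, ∑ x ∈ s, (Z.filter (fun z => T.Adj x z)).card ≤ 2 * l := by
    intro s
    refine le_trans ?_ hsumdeg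
    simp only [card_filter]
    rw [sum_comm]
    apply sum_le_sum
    intro z _
    rw [← card_filter, ← SimpleGraph.card_neighborFinset_eq_degree]
    apply card_le_card
    intro x hx
    rw [mem_filter] at hx
    rw [SimpleGraph.mem_neighborFinset]
    exact hx.2.symm
  have hpos : ∀ x ∈ NZ, 1 ≤ (Z.filter (fun z => T.Adj x z)).card := by
    intro x hx
    rw [hNZ, mem_filter] at hx
    obtain ⟨-, z, hz, hzx⟩ := hx
    exact card_pos.mpr ⟨z, mem_filter.mpr ⟨hz, hzx.symm⟩⟩
  have hNZcard : NZ.card ≤ 2 * l := by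
    refine le_trans ?_ (hinc NZ)
    rw [card_eq_sum_ones]
    exact sum_le_sum hpos
  -- Hall's condition
  have hall : ∀ s : Finset NZ, s.card ≤ (s.biUnion (fun x => t x.1)).card := by
    intro s
    rcases s.eq_empty_or_nonempty with rfl | ⟨x0, hx0⟩
    · simp
    have hsN : s.card ≤ NZ.card := by
      have := card_le_univ s
      rwa [Fintype.card_coe] at this
    have hle : ∀ x ∈ s, (t x.1).card ≤ (s.biUnion (fun x => t x.1)).card := by
      intro x hx
      apply card_le_card
      exact subset_biUnion_of_mem (fun x : NZ => t x.1) hx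
    by_cases h1 : ∃ x ∈ s, (Z.filter (fun z => T.Adj x.1 z)).card ≤ 1
    · obtain ⟨x, hx, hx1⟩ := h1
      have h2 := ht1 x.1
      have h3 := hle x hx
      have h4 : (Z.filter (fun z => T.Adj x.1 z)).card * (l - 1) ≤ 1 * (l - 1) :=
        Nat.mul_le_mul_right _ hx1
      omega
    · push Not at h1
      have h2 := ht1 x0.1
      have h3 := hle x0 hx0
      have h4 : (Z.filter (fun z => T.Adj x0.1 z)).card * (l - 1) ≤ 2 * (l - 1) :=
        Nat.mul_le_mul_right _ (hZ2 x0.1)
      have h5 : 2 * s.card ≤ 2 * l := by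
        refine le_trans ?_ (hinc (s.map (Function.Embedding.subtype _)))
        rw [sum_map, mul_comm, ← smul_eq_mul, ← sum_const]
        apply sum_le_sum
        intro x hx
        exact h1 x hx
      omega
  obtain ⟨f, hf1, hf2⟩ :=
    (Finset.all_card_le_biUnion_card_iff_exists_injective (fun x : NZ => t x.1)).mp hall
  have hmem : ∀ z ∈ Z, ∀ x, T.Adj z x → x ∈ NZ := by
    intro z hz x hzx
    rw [hNZ, mem_filter]
    exact ⟨mem_univ _, z, hz, hzx⟩
  refine assemble T G Z hZind Q hQ (by rw [hk, hQ1, hZc]) φ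
    (fun x => if h : x ∈ NZ then f ⟨x, h⟩ else Classical.arbitrary V) hφ2
    (fun z hz => hYQ _ (hφ1 z hz)) ?_ ?_ ?_
  · intro z hz x hzx
    simp only [dif_pos (hmem z hz x hzx)]
    have := hf2 ⟨x, hmem z hz x hzx⟩
    rw [ht] at this
    simp only [mem_filter] at this
    exact this.1
  · intro z hz z' hz' x x' hzx hzx' hxx
    simp only [dif_pos (hmem z hz x hzx), dif_pos (hmem z' hz' x' hzx')] at hxx
    have := hf1 hxx
    exact congrArg Subtype.val this
  · intro z hz x hzx
    simp only [dif_pos (hmem z hz x hzx)]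
    have := hf2 ⟨x, hmem z hz x hzx⟩
    rw [ht] at this
    simp only [mem_filter] at this
    exact this.2 z hz hzx

end Pool.Agent.H28.TreeClique
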