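import Mathlib

set_option autoImplicit false

namespace Pool.Agent.H28.TreeClique

open Finset Classical

variable {V : Type*}

/-- The `r`-cliques of `G` inside `S`. -/
noncomputable def KS (G : SimpleGraph V) (r : ℕ) (S : Finset V) : Finset (Finset V) :=
  (S.powersetCard r).filter (fun C => G.IsClique (C : Set V))

lemma mem_KS {G : SimpleGraph V} {r : ℕ} {S C : Finset V} :
    C ∈ KS G r S ↔ (C ⊆ S ∧ C.card = r) ∧ G.IsClique (C : Set V) := by
  rw [KS, mem_filter, mem_powersetCard]

/-- The closed neighbourhood of `v` inside `S`. -/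
noncomputable def NS (G : SimpleGraph V) (S : Finset V) (v : V) : Finset V :=
  insert v (S.filter (fun x => G.Adj v x))

/-- cliques that are met, but not contained -/
noncomputable def partialCliques (G : SimpleGraph V) (r : ℕ) (S : Finset V) (v : V) :
    Finset (Finset V) :=
  (KS G r S).filter (fun C => v ∉ C ∧ (∃ u ∈ C, G.Adj v u) ∧ ∃ u ∈ C, ¬ G.Adj v u)

/-- non-cliques in the open neighbourhood -/
noncomputable def nonCliques (G : SimpleGraph V) (r : ℕ) (S : Finset V) (v : V) :
    Finset (Finset V) :=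
  (S.powersetCard r).filter (fun C => (∀ x ∈ C, G.Adj v x) ∧ ¬ G.IsClique (C : Set V))

noncomputable def L1 (G : SimpleGraph V) (U : Finset V) : Finset V :=
  U.filter (fun v => G.IsClique ((U.erase v : Finset V) : Set V) ∧
    (∃ u ∈ U.erase v, G.Adj v u) ∧ ∃ u ∈ U.erase v, ¬ G.Adj v u)

noncomputable def L2 (G : SimpleGraph V) (U : Finset V) : Finset V :=
  U.filter (fun u => (∀ x ∈ U.erase u, G.Adj u x) ∧
    ¬ G.IsClique ((U.erase u : Finset V) : Set V))

lemma L1_le_L2 (G : SimpleGraph V) {r : ℕ} (hr : 3 ≤ r) (U : Finset V) (hU : U.card = r + 1) :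
    (L1 G U).card ≤ (L2 G U).card := by
  rcases (L1 G U).eq_empty_or_nonempty with h0 | ⟨v, hv⟩
  · rw [h0]; simp
  have hv' := hv
  rw [L1, mem_filter] at hv
  obtain ⟨hvU, hcl, ⟨u0, hu0, hvu0⟩, ⟨w0, hw0, hvw0⟩⟩ := hv
  have hsub : ∀ u ∈ U.erase v, G.Adj v u → u ∈ L2 G U := by
    intro u hu hvu
    rw [mem_erase] at hu
    rw [L2, mem_filter]
    refine ⟨hu.2, ?_, ?_⟩
    · intro x hx
      rw [mem_erase] at hx
      by_cases hxv : x = v
      · subst hxv; exact hvu.symm
      · exact hcl (by simp [hu]) (by simp [hx, hxv]) (Ne.symm hx.1)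
    · intro hc
      rw [mem_erase] at hw0
      apply hvw0
      refine hc (by simp [hvU, hu.1.symm]) ?_ (Ne.symm hw0.1)
      have : w0 ≠ u := by
        rintro rfl
        exact hvw0 hvu
      simp [hw0.2, this]
  by_cases hone : L1 G U = {v}
  · rw [hone, card_singleton]
    exact card_pos.mpr ⟨u0, hsub u0 hu0 hvu0⟩
  · obtain ⟨v', hv'1, hv'2⟩ : ∃ v' ∈ L1 G U, v' ≠ v := by
      by_contra hcon
      push Not at hcon
      apply hone
      ext x
      rw [mem_singleton]
      exact ⟨fun hx => hcon x hx, fun hx => hx ▸ hv'⟩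
    have hv'3 := hv'1
    rw [L1, mem_filter] at hv'1
    obtain ⟨hv'U, hcl', -, -⟩ := hv'1
    -- v is adjacent to everything in U except v, v'
    have hadj : ∀ x ∈ U, x ≠ v → x ≠ v' → G.Adj v x := by
      intro x hx hxv hxv'
      exact hcl' (by simp [hvU, hv'2.symm]) (by simp [hx, hxv']) (Ne.symm hxv)
    have hnadj : ¬ G.Adj v v' := by
      rw [mem_erase] at hw0
      by_cases hw : w0 = v'
      · rw [← hw]; exact hvw0
      · exact absurd (hadj w0 hw0.2 hw0.1 hw) hvw0
    have hL1 : L1 G U ⊆ {v, v'} := by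
      intro x hx
      rw [L1, mem_filter] at hx
      by_contra hcon
      simp only [mem_insert, mem_singleton, not_or] at hcon
      apply hnadj
      exact hx.2.1 (by simp [hvU, Ne.symm hcon.1]) (by simp [hv'U, Ne.symm hcon.2]) hv'2.symm
    have hL2 : (U.erase v).erase v' ⊆ L2 G U := by
      intro x hx
      rw [mem_erase, mem_erase] at hx
      exact hsub x (by simp [hx]) (hadj x hx.2.2 hx.2.1 hx.1)
    have h1 := card_le_card hL1
    have h2 := card_le_card hL2
    have h3 : ((U.erase v).erase v').card = r - 1 := by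
      rw [card_erase_of_mem (by simp [hv'U, hv'2]), card_erase_of_mem hvU, hU]
      omega
    have h4 : ({v, v'} : Finset V).card ≤ 2 := card_le_two
    omega

lemma sum_partial (G : SimpleGraph V) (r : ℕ) (S : Finset V) :
    ∑ v ∈ S, (partialCliques G r S v).card = ∑ U ∈ S.powersetCard (r + 1), (L1 G U).card := by
  rw [← card_sigma, ← card_sigma]
  apply card_bij' (fun p _ => (⟨insert p.1 p.2, p.1⟩ : (_ : Finset V) × V))
    (fun p _ => (⟨p.2, p.1.erase p.2⟩ : (_ : V) × Finset V))
  · rintro ⟨v, C⟩ hp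
    rw [mem_sigma, partialCliques, mem_filter, mem_KS] at hp
    obtain ⟨hv, ⟨⟨hC1, hC2⟩, hC3⟩, hvC, h1, h2⟩ := hp
    simp only at hv hC1 hC2 hC3 hvC h1 h2
    rw [mem_sigma, mem_powersetCard, L1, mem_filter]
    simp only
    rw [erase_insert hvC]
    refine ⟨⟨insert_subset hv hC1, by rw [card_insert_of_notMem hvC, hC2]⟩,
      mem_insert_self _ _, hC3, h1, h2⟩
  · rintro ⟨U, v⟩ hp
    rw [mem_sigma, mem_powersetCard, L1, mem_filter] at hp
    obtain ⟨⟨hU1, hU2⟩, hv, h1, h2, h3⟩ := hp
    simp only at hU1 hU2 hv h1 h2 h3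
    rw [mem_sigma, partialCliques, mem_filter, mem_KS]
    simp only
    refine ⟨hU1 hv, ⟨⟨(erase_subset _ _).trans hU1, by rw [card_erase_of_mem hv, hU2]; rfl⟩, h1⟩,
      notMem_erase _ _, h2, h3⟩
  · rintro ⟨v, C⟩ hp
    rw [mem_sigma, partialCliques, mem_filter, mem_KS] at hp
    obtain ⟨hv, ⟨⟨hC1, hC2⟩, hC3⟩, hvC, h1, h2⟩ := hp
    simp only at hvC
    simp only [erase_insert hvC]
  · rintro ⟨U, v⟩ hp
    rw [mem_sigma, mem_powersetCard, L1, mem_filter] at hp
    obtain ⟨⟨hU1, hU2⟩, hv, h1, h2, h3⟩ := hp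
    simp only at hv
    simp only [insert_erase hv]

lemma sum_non (G : SimpleGraph V) (r : ℕ) (S : Finset V) :
    ∑ v ∈ S, (nonCliques G r S v).card = ∑ U ∈ S.powersetCard (r + 1), (L2 G U).card := by
  rw [← card_sigma, ← card_sigma]
  apply card_bij' (fun p _ => (⟨insert p.1 p.2, p.1⟩ : (_ : Finset V) × V))
    (fun p _ => (⟨p.2, p.1.erase p.2⟩ : (_ : V) × Finset V))
  · rintro ⟨v, C⟩ hp
    rw [mem_sigma, nonCliques, mem_filter, mem_powersetCard] at hp
    obtain ⟨hv, ⟨hC1, hC2⟩, h1, h2⟩ := hp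
    simp only at hv hC1 hC2 h1 h2
    have hvC : v ∉ C := fun h => G.loopless.irrefl _ (h1 v h)
    rw [mem_sigma, mem_powersetCard, L2, mem_filter]
    simp only
    rw [erase_insert hvC]
    exact ⟨⟨insert_subset hv hC1, by rw [card_insert_of_notMem hvC, hC2]⟩,
      mem_insert_self _ _, h1, h2⟩
  · rintro ⟨U, v⟩ hp
    rw [mem_sigma, mem_powersetCard, L2, mem_filter] at hp
    obtain ⟨⟨hU1, hU2⟩, hv, h1, h2⟩ := hp
    simp only at hU1 hU2 hv h1 h2
    rw [mem_sigma, nonCliques, mem_filter, mem_powersetCard]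
    simp only
    exact ⟨hU1 hv, ⟨(erase_subset _ _).trans hU1, by rw [card_erase_of_mem hv, hU2]; rfl⟩, h1, h2⟩
  · rintro ⟨v, C⟩ hp
    rw [mem_sigma, nonCliques, mem_filter, mem_powersetCard] at hp
    obtain ⟨hv, ⟨hC1, hC2⟩, h1, h2⟩ := hp
    simp only at h1
    have hvC : v ∉ C := fun h => G.loopless.irrefl _ (h1 v h)
    simp only [erase_insert hvC]
  · rintro ⟨U, v⟩ hp
    rw [mem_sigma, mem_powersetCard, L2, mem_filter] at hp
    obtain ⟨⟨hU1, hU2⟩, hv, h1, h2⟩ := hp
    simp only at hv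
    simp only [insert_erase hv]

/-- The counting lemma: some vertex `v` of `S` has at most `C(|N[v]|, r)` of the `r`-cliques
meeting its closed neighbourhood. -/
theorem exists_vertex (G : SimpleGraph V) {r : ℕ} (hr : 3 ≤ r) (S : Finset V) (hS : S.Nonempty) :
    ∃ v ∈ S, ((KS G r S).filter (fun C => ¬ Disjoint C (NS G S v))).card
      ≤ ((NS G S v).card).choose r := by
  have h1 : ∑ v ∈ S, (partialCliques G r S v).card ≤ ∑ v ∈ S, (nonCliques G r S v).card := by
    rw [sum_partial, sum_non]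
    apply sum_le_sum
    intro U hU
    rw [mem_powersetCard] at hU
    exact L1_le_L2 G hr U hU.2
  obtain ⟨v, hv, hle⟩ := exists_le_of_sum_le hS h1
  refine ⟨v, hv, ?_⟩
  have hNS : NS G S v ⊆ S := insert_subset hv (filter_subset _ _)
  -- cliques meeting the neighbourhood are contained or partial
  have h2 : (KS G r S).filter (fun C => ¬ Disjoint C (NS G S v))
      ⊆ ((NS G S v).powersetCard r).filter (fun C => G.IsClique (C : Set V))
        ∪ partialCliques G r S v := by
    intro C hC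
    rw [mem_filter, mem_KS] at hC
    obtain ⟨⟨⟨hC1, hC2⟩, hC3⟩, hC4⟩ := hC
    rw [mem_union]
    by_cases hsub : C ⊆ NS G S v
    · left
      rw [mem_filter, mem_powersetCard]
      exact ⟨⟨hsub, hC2⟩, hC3⟩
    · right
      rw [partialCliques, mem_filter, mem_KS]
      have hvC : v ∉ C := by
        intro hvC
        apply hsub
        intro x hx
        rw [NS, mem_insert, mem_filter]
        by_cases hxv : x = v
        · left; exact hxv
        · right
          exact ⟨hC1 hx, hC3 hvC hx (Ne.symm hxv)⟩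
      refine ⟨⟨⟨hC1, hC2⟩, hC3⟩, hvC, ?_, ?_⟩
      · rw [not_disjoint_iff] at hC4
        obtain ⟨x, hx, hx'⟩ := hC4
        rw [NS, mem_insert, mem_filter] at hx'
        rcases hx' with rfl | hx'
        · exact absurd hx hvC
        · exact ⟨x, hx, hx'.2⟩
      · rw [not_subset] at hsub
        obtain ⟨x, hx, hx'⟩ := hsub
        refine ⟨x, hx, fun hadj => hx' ?_⟩
        rw [NS, mem_insert, mem_filter]
        right
        exact ⟨hC1 hx, hadj⟩
  have h3 : nonCliques G r S v
      ⊆ ((NS G S v).powersetCard r).filter (fun C => ¬ G.IsClique (C : Set V)) := by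
    intro C hC
    rw [nonCliques, mem_filter, mem_powersetCard] at hC
    rw [mem_filter, mem_powersetCard]
    refine ⟨⟨?_, hC.1.2⟩, hC.2.2⟩
    intro x hx
    rw [NS, mem_insert, mem_filter]
    right
    exact ⟨hC.1.1 hx, hC.2.1 x hx⟩
  have h4 := card_le_card h2
  have h5 := card_le_card h3
  have h6 := card_union_le (((NS G S v).powersetCard r).filter
    (fun C : Finset V => G.IsClique (C : Set V))) (partialCliques G r S v)
  have h7 := card_filter_add_card_filter_not (s := (NS G S v).powersetCard r)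
    (fun C : Finset V => G.IsClique (C : Set V))
  rw [card_powersetCard] at h7
  omega

end Pool.Agent.H28.TreeClique
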