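import Pool.Agent.H28.TreeClique.Main

set_option autoImplicit false

namespace Pool.Agent.H28.TreeClique

open Finset Classical

lemma ncard_cliques {n r : ℕ} (G : SimpleGraph (Fin n)) :
    {s : Finset (Fin n) | G.IsNClique r s}.ncard = (KS G r univ).card := by
  rw [← Set.ncard_coe_finset]
  congr 1
  ext s
  simp only [Set.mem_ofPred_eq, Finset.mem_coe, mem_KS, SimpleGraph.isNClique_iff]
  constructor
  · rintro ⟨h1, h2⟩
    exact ⟨⟨subset_univ _, h2⟩, h1⟩
  · rintro ⟨⟨-, h2⟩, h1⟩
    exact ⟨h1, h2⟩

/-- The disjoint union of cliques on consecutive blocks of size `d`. -/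
def blockGraph (n d : ℕ) : SimpleGraph (Fin n) where
  Adj i j := i ≠ j ∧ i.val / d = j.val / d
  symm := ⟨fun _ _ h => ⟨h.1.symm, h.2.symm⟩⟩
  loopless := ⟨fun _ h => h.1 rfl⟩

/-- A block. -/
def block (n d c : ℕ) : Finset (Fin n) := univ.filter (fun i => i.val / d = c)

lemma block_card (n d c : ℕ) : (block n d c).card = ((range n).filter (fun i => i / d = c)).card := by
  rw [← card_map Fin.valEmbedding]
  congr 1
  ext x
  simp only [block, mem_map, mem_filter, mem_univ, true_and, Fin.valEmbedding_apply, mem_range]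
  constructor
  · rintro ⟨a, h1, rfl⟩
    exact ⟨a.2, h1⟩
  · rintro ⟨h1, h2⟩
    exact ⟨⟨x, h1⟩, h2, rfl⟩

lemma block_card_le (n d c : ℕ) (hd : 1 ≤ d) : (block n d c).card ≤ d := by
  rw [block_card]
  have h1 : (range n).filter (fun i => i / d = c) ⊆ Ico (d * c) (d * c + d) := by
    intro i hi
    rw [mem_filter] at hi
    rw [mem_Ico]
    have h2 := Nat.div_add_mod i d
    have h3 := Nat.mod_lt i hd
    rw [hi.2] at h2
    omega
  have h2 := card_le_card h1
  rw [Nat.card_Ico] at h2
  omega

lemma block_card_full (n d c : ℕ) (hd : 1 ≤ d) (hc : c < n / d) : d ≤ (block n d c).card := by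
  rw [block_card]
  have h1 : Ico (d * c) (d * c + d) ⊆ (range n).filter (fun i => i / d = c) := by
    intro i hi
    rw [mem_Ico] at hi
    have h2 : d * (c + 1) ≤ n := by
      calc d * (c + 1) ≤ d * (n / d) := Nat.mul_le_mul_left _ hc
        _ ≤ n := Nat.mul_div_le _ _
    rw [mul_add, mul_one] at h2
    rw [mem_filter, mem_range]
    refine ⟨by omega, ?_⟩
    rw [Nat.div_eq_iff hd]
    constructor
    · rw [mul_comm]; exact hi.1
    · rw [mul_comm c d]; omega
  have h2 := card_le_card h1
  rw [Nat.card_Ico] at h2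
  omega

lemma block_card_last (n d : ℕ) (hd : 1 ≤ d) : n % d ≤ (block n d (n / d)).card := by
  rw [block_card]
  have h0 := Nat.div_add_mod n d
  have h00 := Nat.mod_lt n hd
  have h1 : Ico (d * (n / d)) n ⊆ (range n).filter (fun i => i / d = n / d) := by
    intro i hi
    rw [mem_Ico] at hi
    rw [mem_filter, mem_range]
    refine ⟨by omega, ?_⟩
    rw [Nat.div_eq_iff hd]
    constructor
    · rw [mul_comm]; exact hi.1
    · rw [mul_comm (n / d) d]; omega
  have h2 := card_le_card h1
  rw [Nat.card_Ico] at h2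
  omega

lemma blockGraph_count (n d r : ℕ) (hd : 1 ≤ d) (hr : 1 ≤ r) :
    F d r n ≤ (KS (blockGraph n d) r univ).card := by
  have h1 : (range (n / d + 1)).biUnion (fun c => (block n d c).powersetCard r)
      ⊆ KS (blockGraph n d) r univ := by
    intro C hC
    rw [mem_biUnion] at hC
    obtain ⟨c, -, hC⟩ := hC
    rw [mem_powersetCard] at hC
    rw [mem_KS]
    refine ⟨⟨subset_univ _, hC.2⟩, ?_⟩
    intro x hx y hy hxy
    have h2 := hC.1 hx
    have h3 := hC.1 hy
    rw [block, mem_filter] at h2 h3
    exact ⟨hxy, h2.2.trans h3.2.symm⟩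
  refine le_trans ?_ (card_le_card h1)
  rw [card_biUnion]
  · rw [sum_range_succ]
    simp only [card_powersetCard]
    unfold F
    gcongr
    · calc n / d * d.choose r = ∑ c ∈ range (n / d), d.choose r := by
            rw [sum_const, card_range, smul_eq_mul]
        _ ≤ _ := by
            apply sum_le_sum
            intro c hc
            exact Nat.choose_le_choose r (block_card_full n d c hd (mem_range.mp hc))
    · exact block_card_last n d hd
  · intro c _ c' _ hcc
    rw [Function.onFun, disjoint_left]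
    intro C hC hC'
    rw [mem_powersetCard] at hC hC'
    obtain ⟨x, hx⟩ : C.Nonempty := card_pos.mp (by omega)
    have h2 := hC.1 hx
    have h3 := hC'.1 hx
    rw [block, mem_filter] at h2 h3
    exact hcc (h2.2.symm.trans h3.2)

lemma blockGraph_free {k : ℕ} (hk : 2 ≤ k) (T : SimpleGraph (Fin k)) (hT : T.IsTree) (n : ℕ) :
    T.Free (blockGraph n (k - 1)) := by
  rintro ⟨f⟩
  have hcon : ∀ x y : Fin k, (f x).val / (k - 1) = (f y).val / (k - 1) := by
    intro x y
    obtain ⟨p⟩ := hT.connected.preconnected x y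
    induction p with
    | nil => rfl
    | cons h _ ih =>
      have := f.toHom.map_adj h
      exact this.2.trans ih
  have h0 : 0 < k := by omega
  set x0 : Fin k := ⟨0, h0⟩
  have h1 : (univ : Finset (Fin k)).image f ⊆ block n (k - 1) ((f x0).val / (k - 1)) := by
    intro y hy
    rw [mem_image] at hy
    obtain ⟨x, -, rfl⟩ := hy
    rw [block, mem_filter]
    exact ⟨mem_univ _, hcon x x0⟩
  have h2 := card_le_card h1
  have h2' : ((univ : Finset (Fin k)).image f).card = (univ : Finset (Fin k)).card :=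
    card_image_of_injective _ f.injective
  rw [h2', card_univ, Fintype.card_fin] at h2
  have h3 := block_card_le n (k - 1) ((f x0).val / (k - 1)) (by omega)
  omega

lemma cliques_empty {k r n : ℕ} (hkr : k ≤ r) (T : SimpleGraph (Fin k)) (G : SimpleGraph (Fin n))
    (hG : T.Free G) : KS G r univ = ∅ := by
  rw [eq_empty_iff_forall_notMem]
  intro C hC
  rw [mem_KS] at hC
  apply hG
  obtain ⟨C', h1, h2⟩ := exists_subset_card_eq (s := C) (n := k) (by omega)
  rcases Nat.eq_zero_or_pos k with rfl | hk
  · exact SimpleGraph.IsContained.of_isEmpty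
  have hne : C'.Nonempty := card_pos.mp (by omega)
  obtain ⟨x, -⟩ := hne
  have : Nonempty (Fin n) := ⟨x⟩
  obtain ⟨f, hf1, hf2⟩ := exists_inj (univ : Finset (Fin k)) C' (by rw [card_univ, Fintype.card_fin, h2])
  have hinj : Function.Injective f := by
    intro a b hab
    exact hf2 (by simp) (by simp) hab
  exact ⟨⟨⟨f, fun {a b} h => hC.2 (h1 (hf1 a (mem_univ _))) (h1 (hf1 b (mem_univ _)))
    (fun h' => h.ne (hinj h'))⟩, hinj⟩⟩

theorem final (k : ℕ) (hk : 2 ≤ k) (T : SimpleGraph (Fin k)) (hT : T.IsTree) (r : ℕ) (hr : 3 ≤ r)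
    (hcase : 3 * k ≤ 4 * r + 1 ∨
      (2 * k + 1 ≤ 3 * r ∧ k ≤ r + {x : Fin k | ∃! y, T.Adj x y}.ncard)) (n : ℕ) :
    (∀ G : SimpleGraph (Fin n), T.Free G →
        {s : Finset (Fin n) | G.IsNClique r s}.ncard ≤
          (n / (k - 1)) * Nat.choose (k - 1) r + Nat.choose (n % (k - 1)) r) ∧
      (∃ G : SimpleGraph (Fin n), T.Free G ∧
        {s : Finset (Fin n) | G.IsNClique r s}.ncard =
          (n / (k - 1)) * Nat.choose (k - 1) r + Nat.choose (n % (k - 1)) r) := by
  have hup : ∀ G : SimpleGraph (Fin n), T.Free G →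
        {s : Finset (Fin n) | G.IsNClique r s}.ncard ≤
          (n / (k - 1)) * Nat.choose (k - 1) r + Nat.choose (n % (k - 1)) r := by
    intro G hG
    rw [ncard_cliques]
    by_cases hkr : k ≤ r
    · rw [cliques_empty hkr T G hG]
      simp
    · push Not at hkr
      obtain ⟨l, hl⟩ := Nat.exists_eq_add_of_le hkr.le
      have hleaves : {x : Fin k | ∃! y, T.Adj x y}.ncard
          = (univ.filter (fun x => T.degree x = 1)).card := by
        rw [← Set.ncard_coe_finset]
        congr 1
        ext x
        simp only [Set.mem_ofPred_eq, coe_filter, mem_univ, true_and,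
          SimpleGraph.degree_eq_one_iff_existsUnique_adj]
      rw [hleaves] at hcase
      have h1 : 2 * l + 1 ≤ r := by omega
      have h2 : l ≤ (univ.filter (fun x => T.degree x = 1)).card ∨ 3 * l ≤ r + 1 := by omega
      have h3 := upper T hT G hr (by omega) h1 (by rw [Fintype.card_fin, hl]) h2 hG n univ
        (by rw [card_univ, Fintype.card_fin])
      rw [← hl] at h3
      exact h3
  refine ⟨hup, blockGraph n (k - 1), blockGraph_free hk T hT n, ?_⟩
  apply le_antisymm (hup _ (blockGraph_free hk T hT n))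
  rw [ncard_cliques]
  exact blockGraph_count n (k - 1) r (by omega) (by omega)

end Pool.Agent.H28.TreeClique
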