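import Pool.Agent.H28.TreeClique.Final

set_option autoImplicit false

namespace Pool.Agent.H28.TreeClique

open Finset Classical

variable {V α : Type*}

/-- The parent function of a tree rooted at `c`. -/
theorem exists_parent (T : SimpleGraph α) (hT : T.IsTree) (c : α) :
    ∃ par : α → α, (∀ x, x ≠ c → T.Adj x (par x) ∧ T.dist c (par x) + 1 = T.dist c x) ∧
      ∀ x y, T.Adj x y → (T.dist c y + 1 = T.dist c x ∧ y = par x) ∨
        (T.dist c x + 1 = T.dist c y ∧ x = par y) := by
  have hex : ∀ x, ∃ p : T.Walk c x, p.length = T.dist c x :=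
    fun x => hT.connected.exists_walk_length_eq_dist c x
  choose w hw using hex
  have key : ∀ x y, T.Adj x y → T.dist c y + 1 = T.dist c x → y = (w x).penultimate := by
    intro x y hxy hd
    have h1 : ((w y).concat hxy.symm).length = T.dist c x := by
      rw [SimpleGraph.Walk.length_concat, hw y, hd]
    have h2 := ((w y).concat hxy.symm).isPath_of_length_eq_dist h1
    have h3 := (w x).isPath_of_length_eq_dist (hw x)
    have h4 := (hT.existsUnique_path c x).unique h2 h3
    rw [← h4]
    simp
  refine ⟨fun x => (w x).penultimate, ?_, ?_⟩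
  · intro x hx
    -- a neighbour of x on the path
    have hnil : ¬ (w x).Nil := by
      intro h
      exact hx h.eq.symm
    have hadj : T.Adj (w x).penultimate x := (w x).adj_penultimate hnil
    refine ⟨hadj.symm, ?_⟩
    have h1 : T.dist c (w x).penultimate ≤ (w x).dropLast.length := SimpleGraph.dist_le _
    have h2 : (w x).dropLast.length + 1 = (w x).length := by
      rw [← SimpleGraph.Walk.length_dropLast_add_one hnil]
    rcases hT.dist_eq_dist_add_one_of_adj c hadj with h | h
    · rw [hw x] at h2
      omega
    · exact h.symm
  · intro x y hxy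
    rcases hT.dist_eq_dist_add_one_of_adj c hxy with h | h
    · left
      exact ⟨h.symm, key x y hxy h.symm⟩
    · right
      exact ⟨h.symm, key y x hxy.symm h.symm⟩

/-- Greedy extension of a partial embedding of `T` minus the leaves at `c`. -/
theorem greedy [Fintype α] (T : SimpleGraph α) (c : α) (par : α → α) (d : α → ℕ)
    (hpar : ∀ x, x ≠ c → T.Adj x (par x) ∧ d (par x) + 1 = d x)
    (G : SimpleGraph V) (C : Finset V) (h : ℕ)
    (hC : ∀ u ∈ C, h ≤ (C.filter (fun y => G.Adj u y)).card)
    (T0 : Finset α) (hT0 : T0.card ≤ h + 1) (hT0par : ∀ x ∈ T0, x ≠ c → par x ∈ T0)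
    (v : V) (n : ℕ) : ∀ (A : Finset α) (f : α → V), (T0 \ A).card = n → A ⊆ T0 → c ∈ A →
      (∀ x ∈ T0, x ≠ c → par x = c → x ∈ A) → (∀ x ∈ A, x ≠ c → par x ∈ A) →
      f c = v → (∀ x ∈ A, x ≠ c → f x ∈ C) → (∀ x ∈ A, x ≠ c → G.Adj (f x) (f (par x))) →
      Set.InjOn f (A : Set α) →
      ∃ g : α → V, g c = v ∧ (∀ x ∈ T0, x ≠ c → g x ∈ C) ∧
        (∀ x ∈ T0, x ≠ c → G.Adj (g x) (g (par x))) ∧ Set.InjOn g (T0 : Set α) := by
  induction n with
  | zero =>
    intro A f hn hA hcA hroots _ hfc hfC hfadj hinj
    have : A = T0 := by
      rw [card_eq_zero, sdiff_eq_empty_iff_subset] at hn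
      exact subset_antisymm hA hn
    subst this
    exact ⟨f, hfc, hfC, hfadj, hinj⟩
  | succ n ih =>
    intro A f hn hA hcA hroots hclosed hfc hfC hfadj hinj
    have hne : (T0 \ A).Nonempty := card_pos.mp (by omega)
    obtain ⟨x, hx, hxmin⟩ := exists_min_image (T0 \ A) d hne
    rw [mem_sdiff] at hx
    have hxc : x ≠ c := fun h => hx.2 (h ▸ hcA)
    have hpT0 : par x ∈ T0 := hT0par x hx.1 hxc
    have hpA : par x ∈ A := by
      by_contra hcon
      have := hxmin (par x) (mem_sdiff.mpr ⟨hpT0, hcon⟩)
      have := (hpar x hxc).2
      omega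
    have hpc : par x ≠ c := fun h => hx.2 (hroots x hx.1 hxc h)
    have hfp : f (par x) ∈ C := hfC (par x) hpA hpc
    have hcardA : A.card ≤ h := by
      have h1 : A ⊂ T0 := ⟨hA, fun h => hx.2 (h hx.1)⟩
      have := card_lt_card h1
      omega
    obtain ⟨y, hy, hyA⟩ : ∃ y ∈ C.filter (fun y => G.Adj (f (par x)) y), y ∉ A.image f := by
      by_contra hcon
      push Not at hcon
      have h1 : C.filter (fun y => G.Adj (f (par x)) y) ⊆ (A.image f).erase (f (par x)) := by
        intro y hy
        rw [mem_erase]
        refine ⟨?_, hcon y hy⟩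
        rintro rfl
        exact G.loopless.irrefl _ (mem_filter.mp hy).2
      have h2 := card_le_card h1
      rw [card_erase_of_mem (mem_image_of_mem f hpA)] at h2
      have h3 : (A.image f).card ≤ A.card := card_image_le
      have h4 := hC _ hfp
      have h5 : 0 < (A.image f).card := card_pos.mpr ⟨_, mem_image_of_mem f hpA⟩
      omega
    rw [mem_filter] at hy
    set f' : α → V := fun z => if z = x then y else f z with hf'
    have e1 : f' x = y := by simp [hf']
    have e2 : ∀ z, z ≠ x → f' z = f z := by
      intro z hz
      simp [hf', hz]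
    have e3 : ∀ z ∈ A, f' z = f z := fun z hz => e2 z (fun h => hx.2 (h ▸ hz))
    have hyf : ∀ z ∈ A, f z ≠ y := fun z hz h => hyA (mem_image.mpr ⟨z, hz, h⟩)
    refine ih (insert x A) f' ?_ (insert_subset hx.1 hA) (mem_insert_of_mem hcA) ?_ ?_ ?_ ?_ ?_ ?_
    · have h1 : T0 \ insert x A = (T0 \ A).erase x := by
        ext z
        simp only [mem_sdiff, mem_insert, mem_erase, not_or]
        tauto
      rw [h1, card_erase_of_mem (mem_sdiff.mpr hx), hn]
      rfl
    · intro z hz hzc hpz
      exact mem_insert_of_mem (hroots z hz hzc hpz)
    · intro z hz hzc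
      rw [mem_insert] at hz
      rcases hz with rfl | hz
      · exact mem_insert_of_mem hpA
      · exact mem_insert_of_mem (hclosed z hz hzc)
    · rw [e3 c hcA, hfc]
    · intro z hz hzc
      rw [mem_insert] at hz
      rcases hz with rfl | hz
      · rw [e1]; exact hy.1
      · rw [e3 z hz]; exact hfC z hz hzc
    · intro z hz hzc
      rw [mem_insert] at hz
      rcases hz with rfl | hz
      · rw [e1, e3 _ hpA]
        exact hy.2.symm
      · rw [e3 z hz, e3 _ (hclosed z hz hzc)]
        exact hfadj z hz hzc
    · intro a ha b hb hab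
      rw [Finset.mem_coe, mem_insert] at ha hb
      rcases ha with rfl | ha
      · rcases hb with rfl | hb
        · rfl
        · rw [e1, e3 b hb] at hab
          exact absurd hab.symm (hyf b hb)
      · rcases hb with rfl | hb
        · rw [e1, e3 a ha] at hab
          exact absurd hab (hyf a ha)
        · rw [e3 a ha, e3 b hb] at hab
          exact hinj ha hb hab

/-- Embedding a tree with a hub `c`. -/
theorem hub_embed [Fintype α] (T : SimpleGraph α) (hT : T.IsTree) (c : α) (G : SimpleGraph V)
    (S C : Finset V) (h : ℕ)
    (hC : ∀ u ∈ C, h ≤ (C.filter (fun y => G.Adj u y)).card)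
    (hT0 : Fintype.card α
      ≤ (univ.filter (fun x => T.Adj c x ∧ T.degree x = 1)).card + (h + 1))
    (v : V) (hroots : (univ.filter (fun x => T.Adj c x ∧ T.degree x ≠ 1)).card
      ≤ (C.filter (fun y => G.Adj v y)).card)
    (hdeg : Fintype.card α ≤ (S.filter (fun y => G.Adj v y)).card + 1) :
    T.IsContained G := by
  have : Nonempty V := ⟨v⟩
  obtain ⟨par, hpar1, hpar2⟩ := exists_parent T hT c
  set Lf : Finset α := univ.filter (fun x => T.Adj c x ∧ T.degree x = 1) with hLf
  set NL : Finset α := univ.filter (fun x => T.Adj c x ∧ T.degree x ≠ 1) with hNL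
  set T0 : Finset α := univ \ Lf with hT0def
  have hmemLf : ∀ x, x ∈ Lf ↔ T.Adj c x ∧ T.degree x = 1 := by
    intro x; rw [hLf, mem_filter]; simp
  have hmemNL : ∀ x, x ∈ NL ↔ T.Adj c x ∧ T.degree x ≠ 1 := by
    intro x; rw [hNL, mem_filter]; simp
  have hmemT0 : ∀ x, x ∈ T0 ↔ x ∉ Lf := by
    intro x; rw [hT0def, mem_sdiff]; simp
  have hT0card : T0.card = Fintype.card α - Lf.card := by
    rw [hT0def, card_sdiff_of_subset (subset_univ _), card_univ]
  have hcLf : c ∉ Lf := fun h => T.loopless.irrefl _ ((hmemLf c).mp h).1
  have hcT0 : c ∈ T0 := (hmemT0 c).mpr hcLf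
  have hparc : ∀ x, T.Adj c x → par x = c := by
    intro x hx
    rcases hpar2 x c hx.symm with h1 | h1
    · exact h1.2.symm
    · have : T.dist c c = 0 := SimpleGraph.dist_self
      omega
  have hT0par : ∀ x ∈ T0, x ≠ c → par x ∈ T0 := by
    intro x _ hxc
    rw [hmemT0]
    intro hp
    rw [hmemLf] at hp
    have h1 := SimpleGraph.degree_eq_one_iff_existsUnique_adj.mp hp.2
    exact hxc (h1.unique (hpar1 x hxc).1.symm hp.1.symm)
  obtain ⟨f0, hf01, hf02⟩ := exists_inj NL (C.filter (fun y => G.Adj v y)) hroots
  set f : α → V := fun x => if x = c then v else f0 x with hf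
  have hfc : f c = v := by simp [hf]
  have hfx : ∀ x, x ≠ c → f x = f0 x := fun x hx => by simp [hf, hx]
  have hNLc : ∀ x ∈ NL, x ≠ c := by
    intro x hx hxc
    rw [hmemNL, hxc] at hx
    exact T.loopless.irrefl _ hx.1
  have hfNL : ∀ x ∈ NL, f x ∈ C ∧ G.Adj v (f x) := by
    intro x hx
    rw [hfx x (hNLc x hx)]
    exact mem_filter.mp (hf01 x hx)
  obtain ⟨g, g1, g2, g3, g4⟩ := greedy T c par (fun x => T.dist c x) hpar1 G C h hC T0
    (by rw [hT0card]; omega) hT0par v _ (insert c NL) f rfl
    (by
      intro x hx
      rw [mem_insert] at hx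
      rcases hx with rfl | hx
      · exact hcT0
      · rw [hmemT0, hmemLf]
        rw [hmemNL] at hx
        exact fun h => hx.2 h.2)
    (mem_insert_self _ _)
    (by
      intro x hx hxc hpx
      rw [mem_insert]
      right
      rw [hmemNL]
      have h1 := (hpar1 x hxc).1
      rw [hpx] at h1
      refine ⟨h1.symm, fun h2 => ?_⟩
      rw [hmemT0, hmemLf] at hx
      exact hx ⟨h1.symm, h2⟩)
    (by
      intro x hx hxc
      rw [mem_insert] at hx
      rcases hx with hx | hx
      · exact absurd hx hxc
      · rw [hparc x ((hmemNL x).mp hx).1]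
        exact mem_insert_self _ _)
    hfc
    (by
      intro x hx hxc
      rw [mem_insert] at hx
      rcases hx with hx | hx
      · exact absurd hx hxc
      · exact (hfNL x hx).1)
    (by
      intro x hx hxc
      rw [mem_insert] at hx
      rcases hx with hx | hx
      · exact absurd hx hxc
      · rw [hparc x ((hmemNL x).mp hx).1, hfc]
        exact (hfNL x hx).2.symm)
    (by
      intro a ha b hb hab
      rw [Finset.mem_coe, mem_insert] at ha hb
      rcases ha with rfl | ha
      · rcases hb with rfl | hb
        · rfl
        · rw [hfc] at hab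
          have := (hfNL b hb).2
          rw [← hab] at this
          exact absurd this (G.loopless.irrefl _)
      · rcases hb with rfl | hb
        · rw [hfc] at hab
          have := (hfNL a ha).2
          rw [hab] at this
          exact absurd this (G.loopless.irrefl _)
        · rw [hfx a (hNLc a ha), hfx b (hNLc b hb)] at hab
          exact hf02 ha hb hab)
  -- the leaves at c
  have h1 : Lf.card ≤ ((S.filter (fun y => G.Adj v y)) \ (T0.image g)).card := by
    have h2 : (S.filter (fun y => G.Adj v y)) ∩ (T0.image g) ⊆ (T0.image g).erase v := by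
      intro y hy
      rw [mem_inter, mem_filter] at hy
      rw [mem_erase]
      refine ⟨?_, hy.2⟩
      rintro rfl
      exact G.loopless.irrefl _ hy.1.2
    have h3 := card_le_card h2
    rw [card_erase_of_mem (mem_image.mpr ⟨c, hcT0, g1⟩)] at h3
    have h4 : (T0.image g).card ≤ T0.card := card_image_le
    have h5 := card_sdiff_add_card_inter (S.filter (fun y => G.Adj v y)) (T0.image g)
    have h6 : 0 < T0.card := card_pos.mpr ⟨c, hcT0⟩
    omega
  obtain ⟨f1, hf11, hf12⟩ := exists_inj Lf _ h1
  set F : α → V := fun x => if x ∈ T0 then g x else f1 x with hF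
  have F0 : ∀ x ∈ T0, F x = g x := fun x hx => by simp [hF, hx]
  have F1 : ∀ x, x ∉ T0 → F x = f1 x := fun x hx => by simp [hF, hx]
  have hnT0 : ∀ x, x ∉ T0 → x ∈ Lf := by
    intro x hx
    rw [hmemT0] at hx
    push Not at hx
    exact hx
  have hinj : Function.Injective F := by
    intro a b hab
    by_cases ha : a ∈ T0
    · by_cases hb : b ∈ T0
      · rw [F0 a ha, F0 b hb] at hab
        exact g4 ha hb hab
      · rw [F0 a ha, F1 b hb] at hab
        have := (mem_sdiff.mp (hf11 b (hnT0 b hb))).2
        exact absurd (mem_image.mpr ⟨a, ha, hab⟩) this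
    · by_cases hb : b ∈ T0
      · rw [F1 a ha, F0 b hb] at hab
        have := (mem_sdiff.mp (hf11 a (hnT0 a ha))).2
        exact absurd (mem_image.mpr ⟨b, hb, hab.symm⟩) this
      · rw [F1 a ha, F1 b hb] at hab
        exact hf12 (hnT0 a ha) (hnT0 b hb) hab
  have hstep : ∀ x, x ≠ c → G.Adj (F x) (F (par x)) := by
    intro x hxc
    by_cases hx : x ∈ T0
    · rw [F0 x hx, F0 _ (hT0par x hx hxc)]
      exact g3 x hx hxc
    · rw [F1 x hx, hparc x ((hmemLf x).mp (hnT0 x hx)).1, F0 c hcT0, g1]
      exact (mem_filter.mp (mem_sdiff.mp (hf11 x (hnT0 x hx))).1).2.symm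
  have hadj : ∀ x y, T.Adj x y → G.Adj (F x) (F y) := by
    intro x y hxy
    rcases hpar2 x y hxy with h2 | h2
    · have hxc : x ≠ c := by
        rintro rfl
        have : T.dist x x = 0 := SimpleGraph.dist_self
        omega
      rw [h2.2]
      exact hstep x hxc
    · have hyc : y ≠ c := by
        rintro rfl
        have : T.dist y y = 0 := SimpleGraph.dist_self
        omega
      rw [h2.2]
      exact (hstep y hyc).symm
  exact ⟨⟨⟨F, fun {a b} h => hadj a b h⟩, hinj⟩⟩

/-- Peeling vertices with few neighbours. -/
theorem peel (G : SimpleGraph V) (r h : ℕ) (n : ℕ) : ∀ S : Finset V, S.card = n →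
    ∃ C ⊆ S, (∀ u ∈ C, h ≤ (C.filter (fun y => G.Adj u y)).card) ∧
      ∀ j ≤ (S \ C).card, ∃ P ⊆ S \ C, P.card = j ∧
        (KS G r S).card ≤ j * (h - 1).choose (r - 1) + (KS G r (S \ P)).card := by
  induction n with
  | zero =>
    intro S hS
    rw [card_eq_zero] at hS
    subst hS
    refine ⟨∅, subset_refl _, by simp, ?_⟩
    intro j hj
    simp only [sdiff_empty, card_empty, nonpos_iff_eq_zero] at hj
    subst hj
    exact ⟨∅, by simp, by simp, by simp⟩
  | succ n ih =>
    intro S hS
    by_cases hcore : ∀ u ∈ S, h ≤ (S.filter (fun y => G.Adj u y)).card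
    · refine ⟨S, subset_refl _, hcore, ?_⟩
      intro j hj
      have hj0 : j = 0 := by simpa using hj
      subst hj0
      exact ⟨∅, by simp, by simp, by simp⟩
    · push Not at hcore
      obtain ⟨x, hxS, hx⟩ := hcore
      obtain ⟨C, hCS, hC, hP⟩ := ih (S.erase x) (by rw [card_erase_of_mem hxS, hS]; rfl)
      have hxC : x ∉ C := fun h => notMem_erase _ _ (hCS h)
      refine ⟨C, hCS.trans (erase_subset _ _), hC, ?_⟩
      intro j hj
      rcases Nat.eq_zero_or_pos j with rfl | hjpos
      · exact ⟨∅, by simp, by simp, by simp⟩
      have hsd : S \ C = insert x ((S.erase x) \ C) := by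
        ext z
        simp only [mem_sdiff, mem_insert, mem_erase]
        constructor
        · rintro ⟨h1, h2⟩
          by_cases hz : z = x
          · left; exact hz
          · right; exact ⟨⟨hz, h1⟩, h2⟩
        · rintro (rfl | h1)
          · exact ⟨hxS, hxC⟩
          · exact ⟨h1.1.2, h1.2⟩
      have hxn : x ∉ (S.erase x) \ C := by simp
      rw [hsd, card_insert_of_notMem hxn] at hj
      obtain ⟨P, hP1, hP2, hP3⟩ := hP (j - 1) (by omega)
      have hxP : x ∉ P := fun h => hxn (hP1 h)
      refine ⟨insert x P, ?_, ?_, ?_⟩
      · rw [hsd]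
        exact insert_subset_insert _ hP1
      · rw [card_insert_of_notMem hxP, hP2]
        omega
      · have e1 : S \ insert x P = (S.erase x) \ P := by
          ext z
          simp only [mem_sdiff, mem_insert, mem_erase, not_or]
          tauto
        rw [e1]
        -- cliques containing x
        have e2 : (KS G r S).card ≤ (h - 1).choose (r - 1) + (KS G r (S.erase x)).card := by
          have h1 : KS G r S ⊆ (KS G r S).filter (fun C => x ∈ C) ∪ KS G r (S.erase x) := by
            intro K hK
            rw [mem_union]
            by_cases hxK : x ∈ K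
            · left; exact mem_filter.mpr ⟨hK, hxK⟩
            · right
              rw [mem_KS] at hK ⊢
              refine ⟨⟨?_, hK.1.2⟩, hK.2⟩
              intro z hz
              exact mem_erase.mpr ⟨fun h => hxK (h ▸ hz), hK.1.1 hz⟩
          have h2 : ((KS G r S).filter (fun C => x ∈ C)).card ≤ (h - 1).choose (r - 1) := by
            have h3 : ((KS G r S).filter (fun C => x ∈ C)).card
                ≤ ((S.filter (fun y => G.Adj x y)).powersetCard (r - 1)).card := by
              apply card_le_card_of_injOn (fun K => K.erase x)
              · intro K hK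
                rw [Finset.mem_coe, mem_filter, mem_KS] at hK
                rw [Finset.mem_coe, mem_powersetCard]
                refine ⟨?_, by rw [card_erase_of_mem hK.2, hK.1.1.2]⟩
                intro z hz
                rw [mem_erase] at hz
                exact mem_filter.mpr ⟨hK.1.1.1 hz.2, hK.1.2 hK.2 hz.2 (Ne.symm hz.1)⟩
              · intro K hK K' hK' hKK
                rw [Finset.mem_coe, mem_filter] at hK hK'
                simp only at hKK
                rw [← insert_erase hK.2, ← insert_erase hK'.2, hKK]
            rw [card_powersetCard] at h3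
            exact h3.trans (Nat.choose_le_choose _ (by omega))
          have h3 := (card_le_card h1).trans (card_union_le _ _)
          omega
        obtain ⟨i, rfl⟩ : ∃ i, j = i + 1 := ⟨j - 1, by omega⟩
        rw [Nat.add_sub_cancel] at hP3
        rw [add_mul, one_mul]
        omega

/-- The upper bound for trees with a hub. -/
theorem hub_upper [Fintype α] (T : SimpleGraph α) (hT : T.IsTree) (c : α) (G : SimpleGraph V)
    {r k : ℕ} (hr3 : 3 ≤ r) (hk2 : 2 ≤ k) (hk : Fintype.card α = k) (lam m : ℕ)
    (hlam : (univ.filter (fun x => T.Adj c x ∧ T.degree x = 1)).card = lam)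
    (hm : (univ.filter (fun x => T.Adj c x ∧ T.degree x ≠ 1)).card = m)
    (hyp : r * (k - 2 - lam).choose (r - 1) ≤ (k - max 2 m).choose (r - 1))
    (hG : T.Free G) (n : ℕ) : ∀ S : Finset V, S.card = n →
    (KS G r S).card ≤ F (k - 1) r n := by
  induction n using Nat.strong_induction_on with
  | _ n ih =>
    intro S hS
    rcases S.eq_empty_or_nonempty with rfl | hSne
    · have : KS G r (∅ : Finset V) = ∅ := by
        rw [eq_empty_iff_forall_notMem]
        intro C hC
        rw [mem_KS] at hC
        have := hC.1.1
        rw [subset_empty] at this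
        rw [this] at hC
        simp at hC
        omega
      rw [this]
      simp
    · set h := k - 1 - lam with hh
      have hh1 : h - 1 = k - 2 - lam := by omega
      obtain ⟨C, hCS, hC, hP⟩ := peel G r h n S hS
      set w := (h - 1).choose (r - 1) with hw
      have hyp' : r * w ≤ (k - max 2 m).choose (r - 1) := by
        rw [hw, hh1]; exact hyp
      -- a general removal step
      have hrem : ∀ j, 1 ≤ j → j ≤ k - 1 → j ≤ (S \ C).card → j * w ≤ j.choose r →
          (KS G r S).card ≤ F (k - 1) r n := by
        intro j hj1 hjk hjc hjw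
        obtain ⟨P, hPS, hPc, hPk⟩ := hP j hjc
        have hPS' : P ⊆ S := hPS.trans sdiff_subset
        have hjn : j ≤ n := by rw [← hPc, ← hS]; exact card_le_card hPS'
        have h1 := ih (n - j) (by omega) (S \ P) (by rw [card_sdiff_of_subset hPS', hS, hPc])
        have h2 := F_add (k - 1) r (n - j) j (by omega) hjk (by omega)
        rw [Nat.sub_add_cancel hjn] at h2
        omega
      have hchoose : ∀ j, 1 ≤ j → k - max 2 m ≤ j - 1 → j * w ≤ j.choose r := by
        intro j hj1 hj
        have h1 : r * w ≤ (j - 1).choose (r - 1) := hyp'.trans (Nat.choose_le_choose _ hj)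
        obtain ⟨i, rfl⟩ : ∃ i, j = i + 1 := ⟨j - 1, by omega⟩
        obtain ⟨q, rfl⟩ : ∃ q, r = q + 1 := ⟨r - 1, by omega⟩
        rw [Nat.add_sub_cancel, Nat.add_sub_cancel] at h1
        have h2 : (i + 1) * i.choose q = (i + 1).choose (q + 1) * (q + 1) :=
          Nat.add_one_mul_choose_eq i q
        have h3 : (q + 1) * ((i + 1) * w) ≤ (q + 1) * (i + 1).choose (q + 1) := by
          calc (q + 1) * ((i + 1) * w) = (i + 1) * ((q + 1) * w) := by ring
            _ ≤ (i + 1) * i.choose q := Nat.mul_le_mul_left _ h1
            _ = (q + 1) * (i + 1).choose (q + 1) := by rw [h2, mul_comm]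
        exact Nat.le_of_mul_le_mul_left h3 (by omega)
      by_cases hp1 : k - 1 ≤ (S \ C).card
      · have h1 : k - max 2 m ≤ k - 1 - 1 := by
          have : 2 ≤ max 2 m := le_max_left _ _
          omega
        exact hrem (k - 1) (by omega) le_rfl hp1 (hchoose (k - 1) (by omega) h1)
      · push Not at hp1
        by_cases hp2 : k < (S \ C).card + m
        · have h1 : k - max 2 m ≤ (S \ C).card - 1 := by
            have : m ≤ max 2 m := le_max_right _ _
            omega
          have h0 : 1 ≤ (S \ C).card := by
            by_contra hcon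
            push Not at hcon
            have h3 : m ≤ k := by
              rw [← hm, ← hk]
              exact card_le_univ _
            omega
          exact hrem (S \ C).card h0 (by omega) le_rfl (hchoose _ h0 h1)
        · push Not at hp2
          obtain ⟨v, hv, hle⟩ := exists_vertex G hr3 S hSne
          set M := NS G S v with hM
          have hMS : M ⊆ S := insert_subset hv (filter_subset _ _)
          have hvM : v ∈ M := mem_insert_self _ _
          have hvN : v ∉ S.filter (fun x => G.Adj v x) := by
            intro h
            exact G.loopless.irrefl _ (mem_filter.mp h).2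
          have hMcard : M.card = (S.filter (fun x => G.Adj v x)).card + 1 := by
            rw [hM, NS, card_insert_of_notMem hvN]
          by_cases hbig : k ≤ M.card
          · exfalso
            apply hG
            have hlamk : lam + m + 1 ≤ k := by
              rw [← hlam, ← hm, ← hk]
              have e1 : (univ.filter (fun x => T.Adj c x ∧ T.degree x = 1)).card
                  + (univ.filter (fun x => T.Adj c x ∧ T.degree x ≠ 1)).card
                  = (univ.filter (fun x => T.Adj c x)).card := by
                rw [← card_union_of_disjoint]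
                · congr 1
                  ext x
                  simp only [mem_union, mem_filter, mem_univ, true_and]
                  tauto
                · rw [disjoint_left]
                  intro x hx hx'
                  rw [mem_filter] at hx hx'
                  exact hx'.2.2 hx.2.2
              rw [e1]
              have e2 : (univ.filter (fun x => T.Adj c x)) ⊆ univ.erase c := by
                intro x hx
                rw [mem_filter] at hx
                rw [mem_erase]
                exact ⟨hx.2.ne', mem_univ _⟩
              have e3 := card_le_card e2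
              rw [card_erase_of_mem (mem_univ _), card_univ] at e3
              omega
            refine hub_embed T hT c G S C h hC (by rw [hk, hlam]; omega) v ?_ (by rw [hk]; omega)
            rw [hm]
            by_cases hvC : v ∈ C
            · have := hC v hvC
              omega
            · -- neighbours in C
              have e1 : (S.filter (fun x => G.Adj v x)) ⊆
                  (C.filter (fun y => G.Adj v y)) ∪ (S \ C).erase v := by
                intro x hx
                rw [mem_filter] at hx
                rw [mem_union]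
                by_cases hxC : x ∈ C
                · left; exact mem_filter.mpr ⟨hxC, hx.2⟩
                · right
                  rw [mem_erase, mem_sdiff]
                  exact ⟨hx.2.ne', hx.1, hxC⟩
              have e2 := (card_le_card e1).trans (card_union_le _ _)
              rw [card_erase_of_mem (mem_sdiff.mpr ⟨hv, hvC⟩)] at e2
              have e3 : 0 < (S \ C).card := card_pos.mpr ⟨v, mem_sdiff.mpr ⟨hv, hvC⟩⟩
              omega
          · push Not at hbig
            have h1 : KS G r S ⊆ (KS G r S).filter (fun C => ¬ Disjoint C M)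
                ∪ KS G r (S \ M) := by
              intro K hK
              rw [mem_union]
              by_cases hd : Disjoint K M
              · right
                rw [mem_KS] at hK ⊢
                refine ⟨⟨?_, hK.1.2⟩, hK.2⟩
                intro x hx
                rw [mem_sdiff]
                exact ⟨hK.1.1 hx, disjoint_left.mp hd hx⟩
              · left
                rw [mem_filter]
                exact ⟨hK, hd⟩
            have h2 := (card_le_card h1).trans (card_union_le _ _)
            have hMpos : 1 ≤ M.card := card_pos.mpr ⟨v, hvM⟩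
            have hMle : M.card ≤ n := by rw [← hS]; exact card_le_card hMS
            have h3 := ih (n - M.card) (by omega) (S \ M) (by rw [card_sdiff_of_subset hMS, hS])
            have h4 := F_add (k - 1) r (n - M.card) M.card (by omega) (by omega) (by omega)
            rw [Nat.sub_add_cancel hMle] at h4
            omega

end Pool.Agent.H28.TreeClique
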