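import Pool.Agent.H28.TreeClique.Hub

set_option autoImplicit false

namespace Pool.Agent.H28.TreeClique

open Finset Classical

lemma desc_double (b q : ℕ) : 2 ^ q * b.descFactorial q ≤ (2 * b).descFactorial q := by
  induction q with
  | zero => simp
  | succ q ih =>
    rw [Nat.descFactorial_succ, Nat.descFactorial_succ]
    calc 2 ^ (q + 1) * ((b - q) * b.descFactorial q)
        = (2 * (b - q)) * (2 ^ q * b.descFactorial q) := by ring
      _ ≤ (2 * b - q) * (2 * b).descFactorial q := Nat.mul_le_mul (by omega) ih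

lemma choose_double (a b r : ℕ) (hr : 1 ≤ r) (h : 2 * b ≤ a) :
    r * b.choose (r - 1) ≤ a.choose (r - 1) := by
  obtain ⟨q, rfl⟩ : ∃ q, r = q + 1 := ⟨r - 1, by omega⟩
  rw [Nat.add_sub_cancel]
  have h1 := desc_double b q
  rw [Nat.descFactorial_eq_factorial_mul_choose, Nat.descFactorial_eq_factorial_mul_choose] at h1
  have h2 : q.factorial * (2 ^ q * b.choose q) ≤ q.factorial * (2 * b).choose q := by
    calc q.factorial * (2 ^ q * b.choose q) = 2 ^ q * (q.factorial * b.choose q) := by ring
      _ ≤ _ := h1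
  have h3 : 2 ^ q * b.choose q ≤ (2 * b).choose q :=
    Nat.le_of_mul_le_mul_left h2 (Nat.factorial_pos q)
  have h4 : q + 1 ≤ 2 ^ q := Nat.lt_two_pow_self
  calc (q + 1) * b.choose q ≤ 2 ^ q * b.choose q := Nat.mul_le_mul_right _ h4
    _ ≤ (2 * b).choose q := h3
    _ ≤ a.choose q := Nat.choose_le_choose q h

lemma hub_count {α : Type*} [Fintype α] (T : SimpleGraph α) (hT : T.IsTree) (c : α) :
    (univ.filter (fun x => T.Adj c x ∧ T.degree x = 1)).card
      + 2 * (univ.filter (fun x => T.Adj c x ∧ T.degree x ≠ 1)).card + 1 ≤ Fintype.card α := by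
  obtain ⟨par, hpar1, hpar2⟩ := exists_parent T hT c
  set Lf : Finset α := univ.filter (fun x => T.Adj c x ∧ T.degree x = 1) with hLf
  set NL : Finset α := univ.filter (fun x => T.Adj c x ∧ T.degree x ≠ 1) with hNL
  have hmemLf : ∀ x, x ∈ Lf ↔ T.Adj c x ∧ T.degree x = 1 := by
    intro x; rw [hLf, mem_filter]; simp
  have hmemNL : ∀ x, x ∈ NL ↔ T.Adj c x ∧ T.degree x ≠ 1 := by
    intro x; rw [hNL, mem_filter]; simp
  have hparc : ∀ x, T.Adj c x → par x = c := by
    intro x hx
    rcases hpar2 x c hx.symm with h1 | h1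
    · exact h1.2.symm
    · have : T.dist c c = 0 := SimpleGraph.dist_self
      omega
  have hex : ∀ x, ∃ y, x ∈ NL → (par y = x ∧ y ≠ c) := by
    intro x
    by_cases hx : x ∈ NL
    · have hx' := (hmemNL x).mp hx
      obtain ⟨y, hy1, hy2⟩ : ∃ y, T.Adj x y ∧ y ≠ c := by
        by_contra hcon
        push Not at hcon
        apply hx'.2
        rw [SimpleGraph.degree_eq_one_iff_existsUnique_adj]
        exact ⟨c, hx'.1.symm, fun y hy => hcon y hy⟩
      refine ⟨y, fun _ => ⟨?_, hy2⟩⟩
      rcases hpar2 x y hy1 with h1 | h1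
      · exact absurd (h1.2.trans (hparc x hx'.1)) hy2
      · exact h1.2.symm
    · exact ⟨c, fun h => absurd h hx⟩
  choose ch hch using hex
  have hchinj : Set.InjOn ch (NL : Set α) := by
    intro a ha b hb hab
    rw [← (hch a ha).1, ← (hch b hb).1, hab]
  have e1 : (NL.image ch).card = NL.card := card_image_of_injOn hchinj
  have d1 : Disjoint Lf NL := by
    rw [disjoint_left]
    intro x hx hx'
    exact ((hmemNL x).mp hx').2 ((hmemLf x).mp hx).2
  have d2 : Disjoint (Lf ∪ NL) (NL.image ch) := by
    rw [disjoint_left]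
    intro x hx hx'
    rw [mem_image] at hx'
    obtain ⟨z, hz, rfl⟩ := hx'
    have hcadj : T.Adj c (ch z) := by
      rw [mem_union] at hx
      rcases hx with hx | hx
      · exact ((hmemLf _).mp hx).1
      · exact ((hmemNL _).mp hx).1
    have h1 := hparc _ hcadj
    rw [(hch z hz).1] at h1
    have h2 := ((hmemNL z).mp hz).1
    rw [h1] at h2
    exact T.loopless.irrefl _ h2
  have e2 : (Lf ∪ NL ∪ NL.image ch) ⊆ univ.erase c := by
    intro x hx
    rw [mem_erase]
    refine ⟨?_, mem_univ _⟩
    rw [mem_union, mem_union] at hx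
    rcases hx with (hx | hx) | hx
    · exact ((hmemLf x).mp hx).1.ne'
    · exact ((hmemNL x).mp hx).1.ne'
    · rw [mem_image] at hx
      obtain ⟨z, hz, rfl⟩ := hx
      exact (hch z hz).2
  have e3 := card_le_card e2
  rw [card_union_of_disjoint d2, card_union_of_disjoint d1, e1, card_erase_of_mem (mem_univ _),
    card_univ] at e3
  have : 0 < Fintype.card α := Fintype.card_pos_iff.mpr ⟨c⟩
  omega

theorem hub_final (k : ℕ) (hk : 2 ≤ k) (T : SimpleGraph (Fin k)) (hT : T.IsTree) (r : ℕ)
    (hr : 3 ≤ r) (c : Fin k) (lam m : ℕ)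
    (hlam : {x : Fin k | T.Adj c x ∧ ∃! y, T.Adj x y}.ncard = lam)
    (hm : {x : Fin k | T.Adj c x ∧ ¬ ∃! y, T.Adj x y}.ncard = m)
    (hyp : 3 * k ≤ 5 * lam + 9 ∨ k + max 2 m ≤ 2 * lam + 4 ∨
      r * Nat.choose (k - 2 - lam) (r - 1) ≤ Nat.choose (k - max 2 m) (r - 1)) (n : ℕ) :
    (∀ G : SimpleGraph (Fin n), T.Free G →
        {s : Finset (Fin n) | G.IsNClique r s}.ncard ≤
          (n / (k - 1)) * Nat.choose (k - 1) r + Nat.choose (n % (k - 1)) r) ∧
      (∃ G : SimpleGraph (Fin n), T.Free G ∧
        {s : Finset (Fin n) | G.IsNClique r s}.ncard =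
          (n / (k - 1)) * Nat.choose (k - 1) r + Nat.choose (n % (k - 1)) r) := by
  have hup : ∀ G : SimpleGraph (Fin n), T.Free G →
        {s : Finset (Fin n) | G.IsNClique r s}.ncard ≤
          (n / (k - 1)) * Nat.choose (k - 1) r + Nat.choose (n % (k - 1)) r := by
    intro G hG
    rw [ncard_cliques]
    by_cases hkr : k ≤ r
    · rw [cliques_empty hkr T G hG]
      simp
    · push Not at hkr
      have hl' : (univ.filter (fun x => T.Adj c x ∧ T.degree x = 1)).card = lam := by
        rw [← hlam, ← Set.ncard_coe_finset]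
        congr 1
        ext x
        simp only [Set.mem_ofPred_eq, coe_filter, mem_univ, true_and,
          SimpleGraph.degree_eq_one_iff_existsUnique_adj]
      have hm' : (univ.filter (fun x => T.Adj c x ∧ T.degree x ≠ 1)).card = m := by
        rw [← hm, ← Set.ncard_coe_finset]
        congr 1
        ext x
        simp only [Set.mem_ofPred_eq, coe_filter, mem_univ, true_and, ne_eq,
          SimpleGraph.degree_eq_one_iff_existsUnique_adj]
      have hcount := hub_count T hT c
      rw [hl', hm', Fintype.card_fin] at hcount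
      have hyp2 : r * Nat.choose (k - 2 - lam) (r - 1) ≤ Nat.choose (k - max 2 m) (r - 1) := by
        rcases hyp with h | h | h
        · apply choose_double _ _ _ (by omega)
          have : max 2 m ≤ 2 ∨ max 2 m ≤ m := by
            rcases le_total 2 m with h1 | h1
            · right; rw [max_eq_right h1]
            · left; rw [max_eq_left h1]
          omega
        · apply choose_double _ _ _ (by omega)
          omega
        · exact h
      exact hub_upper T hT c G hr hk (Fintype.card_fin k) lam m hl' hm' hyp2 hG n univ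
        (by rw [card_univ, Fintype.card_fin])
  refine ⟨hup, blockGraph n (k - 1), blockGraph_free hk T hT n, ?_⟩
  apply le_antisymm (hup _ (blockGraph_free hk T hT n))
  rw [ncard_cliques]
  exact blockGraph_count n (k - 1) r (by omega) (by omega)

end Pool.Agent.H28.TreeClique
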