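import Pool.Agent.H28.TreeClique.Count
import Pool.Agent.H28.TreeClique.CaseA
import Pool.Agent.H28.TreeClique.CaseB

set_option autoImplicit false

namespace Pool.Agent.H28.TreeClique

open Finset Classical

variable {V α : Type*}

/-- The embedding theorem. -/
theorem embed [Fintype α] (T : SimpleGraph α) (hT : T.IsTree) (G : SimpleGraph V)
    {r l : ℕ} (hl : 1 ≤ l) (hr : 2 * l + 1 ≤ r) (hk : Fintype.card α = r + l)
    (hcase : l ≤ (univ.filter (fun x => T.degree x = 1)).card ∨ 3 * l ≤ r + 1)
    (v : V) (N : Finset V) (hvN : v ∉ N)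
    (hN : ∀ y ∈ N, ∃ Q : Finset V, Q.card = r ∧ G.IsClique (Q : Set V) ∧ v ∈ Q ∧ y ∈ Q)
    (hNc : r + l - 1 ≤ N.card) : T.IsContained G := by
  have : Nonempty V := ⟨v⟩
  obtain ⟨y0, hy0⟩ : N.Nonempty := card_pos.mp (by omega)
  obtain ⟨Q, hQ1, hQ, hvQ, -⟩ := hN y0 hy0
  have h1 : l ≤ (N \ Q).card := by
    have h2 : N ∩ Q ⊆ Q.erase v := by
      intro x hx
      rw [mem_inter] at hx
      exact mem_erase.mpr ⟨fun h => hvN (h ▸ hx.1), hx.2⟩
    have h3 := card_le_card h2
    rw [card_erase_of_mem hvQ, hQ1] at h3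
    have h4 := card_sdiff_add_card_inter N Q
    omega
  obtain ⟨Y, hY1, hY2⟩ := exists_subset_card_eq h1
  have hYN : ∀ y ∈ Y, y ∈ N := fun y hy => (mem_sdiff.mp (hY1 hy)).1
  have hYQ : ∀ y ∈ Y, y ∉ Q := fun y hy => (mem_sdiff.mp (hY1 hy)).2
  have hex : ∀ y, ∃ Qy : Finset V, y ∈ Y → (Qy.card = r ∧ G.IsClique (Qy : Set V) ∧ v ∈ Qy ∧ y ∈ Qy) := by
    intro y
    by_cases hy : y ∈ Y
    · obtain ⟨Qy, h⟩ := hN y (hYN y hy)
      exact ⟨Qy, fun _ => h⟩
    · exact ⟨∅, fun h => absurd h hy⟩
  choose QQ hQQ using hex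
  by_cases hbig : ∃ y ∈ Y, r + l ≤ (Q ∪ QQ y).card
  · obtain ⟨y, hy, hyU⟩ := hbig
    obtain ⟨g1, g2, g3, g4⟩ := hQQ y hy
    exact two_clique T hT G hl (by omega) hk Q (QQ y) hQ1 g1 hQ g2 v hvQ g3 hyU
  · push Not at hbig
    have hmiss : ∀ y ∈ Y, (Q.filter (fun x => ¬ G.Adj y x)).card ≤ l - 1 := by
      intro y hy
      obtain ⟨g1, g2, g3, g4⟩ := hQQ y hy
      have h2 : Q.filter (fun x => ¬ G.Adj y x) ⊆ Q \ QQ y := by
        intro x hx
        rw [mem_filter] at hx
        rw [mem_sdiff]
        refine ⟨hx.1, fun h => hx.2 (g2 g4 h ?_)⟩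
        rintro rfl
        exact hYQ _ hy hx.1
      have h3 := card_le_card h2
      have h4 := hbig y hy
      have h5 := card_union_eq_card_add_card.mpr (sdiff_disjoint : Disjoint (Q \ QQ y) (QQ y))
      rw [sdiff_union_self_eq_union] at h5
      omega
    have hYv : ∀ y ∈ Y, G.Adj y v := by
      intro y hy
      obtain ⟨g1, g2, g3, g4⟩ := hQQ y hy
      exact g2 g4 g3 (fun h => hvN (h ▸ hYN y hy))
    by_cases hL : l ≤ (univ.filter (fun x => T.degree x = 1)).card
    · exact caseA T hT G hl hr hk Q Y hQ1 hQ v hvQ hY2 hYQ hYv hmiss hL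
    · have h3 : 3 * l ≤ r + 1 := hcase.resolve_left hL
      exact caseB T hT G hl h3 hk Q Y hQ1 hQ hY2 hYQ hmiss (by omega)

lemma choose_convex (b u v r : ℕ) :
    (b + u).choose r + (b + v).choose r ≤ (b + u + v).choose r + b.choose r := by
  induction v with
  | zero => simp
  | succ v ih =>
    cases r with
    | zero => simp
    | succ r =>
      have h1 : (b + (v + 1)).choose (r + 1) = (b + v).choose r + (b + v).choose (r + 1) :=
        Nat.choose_succ_succ _ _
      have h2 : (b + u + (v + 1)).choose (r + 1)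
          = (b + u + v).choose r + (b + u + v).choose (r + 1) := Nat.choose_succ_succ _ _
      have h3 : (b + v).choose r ≤ (b + u + v).choose r := Nat.choose_le_choose r (by omega)
      rw [h1, h2]
      omega

/-- The conjectured extremal number. -/
def F (d r n : ℕ) : ℕ := (n / d) * d.choose r + (n % d).choose r

lemma F_add (d r n m : ℕ) (hr : 1 ≤ r) (hm1 : m ≤ d) (hd : 1 ≤ d) :
    F d r n + m.choose r ≤ F d r (n + m) := by
  unfold F
  have hb : n % d < d := Nat.mod_lt _ hd
  have hn := Nat.div_add_mod n d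
  set a := n / d with ha
  set b := n % d with hb'
  by_cases h : b + m < d
  · have h1 : (n + m) / d = a := by
      rw [← hn, add_assoc]
      rw [Nat.mul_add_div hd, Nat.div_eq_of_lt h]
      rfl
    have h2 : (n + m) % d = b + m := by
      rw [← hn, add_assoc, Nat.mul_add_mod, Nat.mod_eq_of_lt h]
    rw [h1, h2]
    have h3 := choose_convex 0 b m r
    rw [Nat.choose_eq_zero_of_lt hr] at h3
    simp only [zero_add, add_zero] at h3
    omega
  · push Not at h
    obtain ⟨e, he⟩ := Nat.exists_eq_add_of_le h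
    have hed : e < d := by omega
    have h1 : (n + m) / d = a + 1 := by
      rw [← hn, add_assoc, he, Nat.mul_add_div hd, Nat.add_div_left _ hd, Nat.div_eq_of_lt hed]
    have h2 : (n + m) % d = e := by
      rw [← hn, add_assoc, he, Nat.mul_add_mod, Nat.add_mod_left, Nat.mod_eq_of_lt hed]
    rw [h1, h2]
    obtain ⟨u, hu⟩ := Nat.exists_eq_add_of_le (show e ≤ b by omega)
    obtain ⟨w, hw⟩ := Nat.exists_eq_add_of_le (show e ≤ m by omega)
    have h3 := choose_convex e u w r
    have h4 : e + u + w = d := by omega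
    rw [h4, ← hu, ← hw] at h3
    rw [add_mul, one_mul]
    omega

/-- Two vertices are adjacent when they lie in a common `r`-clique inside `S`. -/
def cliqueGraph (G : SimpleGraph V) (r : ℕ) (S : Finset V) : SimpleGraph V where
  Adj x y := x ≠ y ∧ ∃ C ∈ KS G r S, x ∈ C ∧ y ∈ C
  symm := ⟨fun x y h => ⟨h.1.symm, by
    obtain ⟨C, hC, h1, h2⟩ := h.2
    exact ⟨C, hC, h2, h1⟩⟩⟩
  loopless := ⟨fun x h => h.1 rfl⟩

lemma cliqueGraph_adj {G : SimpleGraph V} {r : ℕ} {S : Finset V} {x y : V} :
    (cliqueGraph G r S).Adj x y ↔ x ≠ y ∧ ∃ C ∈ KS G r S, x ∈ C ∧ y ∈ C := Iff.rfl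

/-- The upper bound. -/
theorem upper [Fintype α] (T : SimpleGraph α) (hT : T.IsTree) (G : SimpleGraph V)
    {r l : ℕ} (hr3 : 3 ≤ r) (hl : 1 ≤ l) (hr : 2 * l + 1 ≤ r) (hk : Fintype.card α = r + l)
    (hcase : l ≤ (univ.filter (fun x => T.degree x = 1)).card ∨ 3 * l ≤ r + 1)
    (hG : T.Free G) (n : ℕ) : ∀ S : Finset V, S.card = n →
    (KS G r S).card ≤ F (r + l - 1) r n := by
  induction n using Nat.strong_induction_on with
  | _ n ih =>
    intro S hS
    rcases S.eq_empty_or_nonempty with rfl | hSne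
    · have : KS G r (∅ : Finset V) = ∅ := by
        rw [eq_empty_iff_forall_notMem]
        intro C hC
        rw [mem_KS] at hC
        have := hC.1.1
        rw [subset_empty] at this
        rw [this] at hC
        simp at hC
        omega
      rw [this]
      simp
    · set G' : SimpleGraph V := cliqueGraph G r S with hG'
      have hKS : KS G r S ⊆ KS G' r S := by
        intro C hC
        have hC' := hC
        rw [mem_KS] at hC ⊢
        refine ⟨hC.1, ?_⟩
        intro x hx y hy hxy
        exact cliqueGraph_adj.mpr ⟨hxy, C, hC', hx, hy⟩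
      obtain ⟨v, hv, hle⟩ := exists_vertex G' hr3 S hSne
      set M := NS G' S v with hM
      have hMS : M ⊆ S := insert_subset hv (filter_subset _ _)
      have hvM : v ∈ M := mem_insert_self _ _
      by_cases hbig : r + l ≤ M.card
      · exfalso
        apply hG
        have hvN : v ∉ S.filter (fun x => G'.Adj v x) := by
          intro h
          exact G'.loopless.irrefl _ (mem_filter.mp h).2
        refine embed T hT G hl hr hk hcase v (S.filter (fun x => G'.Adj v x)) hvN ?_ ?_
        · intro y hy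
          obtain ⟨-, C, hC, h1, h2⟩ := cliqueGraph_adj.mp (mem_filter.mp hy).2
          rw [mem_KS] at hC
          exact ⟨C, hC.1.2, hC.2, h1, h2⟩
        · have : M.card = (S.filter (fun x => G'.Adj v x)).card + 1 := by
            rw [hM, NS, card_insert_of_notMem hvN]
          omega
      · push Not at hbig
        have h1 : KS G r S ⊆ (KS G' r S).filter (fun C => ¬ Disjoint C M) ∪ KS G r (S \ M) := by
          intro C hC
          rw [mem_union]
          by_cases hd : Disjoint C M
          · right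
            rw [mem_KS] at hC ⊢
            refine ⟨⟨?_, hC.1.2⟩, hC.2⟩
            intro x hx
            rw [mem_sdiff]
            exact ⟨hC.1.1 hx, disjoint_left.mp hd hx⟩
          · left
            rw [mem_filter]
            exact ⟨hKS hC, hd⟩
        have h2 := (card_le_card h1).trans (card_union_le _ _)
        have hMpos : 1 ≤ M.card := card_pos.mpr ⟨v, hvM⟩
        have hMle : M.card ≤ n := by rw [← hS]; exact card_le_card hMS
        have h3 := ih (n - M.card) (by omega) (S \ M) (by rw [card_sdiff_of_subset hMS, hS])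
        have h4 := F_add (r + l - 1) r (n - M.card) M.card (by omega) (by omega) (by omega)
        rw [Nat.sub_add_cancel hMle] at h4
        omega

end Pool.Agent.H28.TreeClique
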